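import Pool.Agent.H35L.Stm

/-!
# Project LP, piece BLK: a block of `m` doublings
-/

set_option autoImplicit false

namespace Pool.Agent.H35L

open Finset

namespace BLK

theorem sum_lin {R : Type*} [CommRing R] (m : ℕ) : (2 : R) * ∑ i ∈ range m, ((i : R) + 1) = (m : R) * ((m : R) + 1) := by
  induction m with
  | zero => simp
  | succ m ih =>
    rw [sum_range_succ, mul_add, ih]
    push_cast
    ring

theorem sum_sq {R : Type*} [CommRing R] (m : ℕ) :
    (6 : R) * ∑ i ∈ range m, ((i : R) + 1) ^ 2 = (m : R) * ((m : R) + 1) * (2 * (m : R) + 1) := by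
  induction m with
  | zero => simp
  | succ m ih =>
    rw [sum_range_succ, mul_add, ih]
    push_cast
    ring

theorem sum_geo {R : Type*} [CommRing R] (m : ℕ) : ∑ i ∈ range m, (2 : R) ^ (i + 1) = 2 ^ (m + 1) - 2 := by
  induction m with
  | zero => simp
  | succ m ih =>
    rw [sum_range_succ, ih]
    ring

theorem sum_ling {R : Type*} [CommRing R] (m : ℕ) :
    ∑ i ∈ range m, ((i : R) + 1) * 2 ^ (i + 1) = ((m : R) - 1) * 2 ^ (m + 1) + 2 := by
  induction m with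
  | zero => simp
  | succ m ih =>
    rw [sum_range_succ, ih]
    push_cast
    ring

theorem K_eq {p m j r : ℕ} (hp : 0 < p) (hr : r = 2 ^ m * (2 ^ j % p) / p) :
    2 ^ (j + m) / p = 2 ^ m * (2 ^ j / p) + r := by
  have h1 : 2 ^ (j + m) = 2 ^ m * (2 ^ j % p) + p * (2 ^ m * (2 ^ j / p)) := by
    calc 2 ^ (j + m) = 2 ^ m * 2 ^ j := by ring
      _ = 2 ^ m * (2 ^ j % p + p * (2 ^ j / p)) := by rw [Nat.mod_add_div]
      _ = _ := by ring
  rw [h1, Nat.add_mul_div_left _ _ hp, hr, add_comm]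

theorem K_split {p m j r s : ℕ} (hp : 0 < p) (hr : r = 2 ^ m * (2 ^ j % p) / p) (hs : s ≤ m) :
    2 ^ (j + m) / p = 2 ^ s * (2 ^ (j + (m - s)) / p) + r % 2 ^ s := by
  have h1 : 2 ^ (j + m) / p / 2 ^ s = 2 ^ (j + (m - s)) / p := by
    have h2 : 2 ^ (j + m) = 2 ^ (j + (m - s)) * 2 ^ s := by
      rw [← pow_add]
      congr 1
      omega
    rw [Nat.div_div_eq_div_mul, h2, Nat.mul_div_mul_right _ _ (by positivity)]
  have h3 : 2 ^ (j + m) / p % 2 ^ s = r % 2 ^ s := by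
    rw [K_eq hp hr]
    have h4 : 2 ^ m = 2 ^ s * 2 ^ (m - s) := by
      rw [← pow_add]
      congr 1
      omega
    rw [h4, Nat.mul_assoc, Nat.mul_add_mod]
  calc 2 ^ (j + m) / p = 2 ^ s * (2 ^ (j + m) / p / 2 ^ s) + 2 ^ (j + m) / p % 2 ^ s := (Nat.div_add_mod _ _).symm
    _ = _ := by rw [h1, h3]

end BLK

open BLK in
theorem t_BLK : S_BLK := by
  intro p m j r hp hp3 hr Q β q2 C3 hQ hβ hq2 hC3
  have : Fact p.Prime := ⟨hp⟩
  have hp0 : 0 < p := hp.pos
  have h2 : (2 : ZMod p) ≠ 0 := by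
    intro h
    have h1 : ((2 : ℕ) : ZMod p) = 0 := by exact_mod_cast h
    rw [ZMod.natCast_eq_zero_iff] at h1
    have := Nat.le_of_dvd (by norm_num) h1
    omega
  have h3 : (3 : ZMod p) ≠ 0 := by
    intro h
    have h1 : ((3 : ℕ) : ZMod p) = 0 := by exact_mod_cast h
    rw [ZMod.natCast_eq_zero_iff] at h1
    have := Nat.le_of_dvd (by norm_num) h1
    omega
  have h6 : (6 : ZMod p) ≠ 0 := by
    have h1 : (6 : ZMod p) = 2 * 3 := by norm_num
    rw [h1]
    exact mul_ne_zero h2 h3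
  -- the numbers `bj`
  have hb : ∀ s, s ≤ m → bj p (j + (m - s)) = β * 2 ^ s := by
    intro s hs
    rw [hβ]
    unfold bj
    have h4 : (2 : ZMod p) ^ (j + m) = 2 ^ (j + (m - s)) * 2 ^ s := by
      rw [← pow_add]
      congr 1
      omega
    rw [h4, mul_inv, mul_assoc, inv_mul_cancel₀ (pow_ne_zero _ h2), mul_one]
  -- the numbers `qj`
  have hq : ∀ s, s ≤ m → qj p (j + (m - s)) = Q - s * q2 - ((r % 2 ^ s : ℕ) : ZMod p) * β := by
    intro s hs
    have h4 := K_split hp0 hr hs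
    have h5 : ((2 ^ (j + m) / p : ℕ) : ZMod p) =
        2 ^ s * ((2 ^ (j + (m - s)) / p : ℕ) : ZMod p) + ((r % 2 ^ s : ℕ) : ZMod p) := by
      have h6 := congrArg (fun n : ℕ => (n : ZMod p)) h4
      simp only [Nat.cast_add, Nat.cast_mul, Nat.cast_pow, Nat.cast_ofNat] at h6
      exact h6
    rw [hQ]
    unfold qj
    rw [hb s hs, h5, ← hq2, ← hβ]
    have h7 : ((j + m : ℕ) : ZMod p) = ((j + (m - s) : ℕ) : ZMod p) + s := by
      rw [← Nat.cast_add]
      congr 1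
      omega
    rw [h7]
    ring
  have hrefl : ∀ f : ℕ → ZMod p, ∑ i ∈ range m, f (j + i) = ∑ i ∈ range m, f (j + (m - (i + 1))) := by
    intro f
    rw [← Finset.sum_range_reflect (fun i => f (j + i)) m]
    refine Finset.sum_congr rfl fun i _ => ?_
    congr 2
    omega
  have hqi : ∀ i ∈ range m, qj p (j + (m - (i + 1))) =
      Q - ((i : ZMod p) + 1) * q2 - ((r % 2 ^ (i + 1) : ℕ) : ZMod p) * β := by
    intro i hi
    rw [hq (i + 1) (Nat.succ_le_of_lt (mem_range.1 hi))]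
    push_cast
    ring
  have hbi : ∀ i ∈ range m, bj p (j + (m - (i + 1))) = β * 2 ^ (i + 1) := fun i hi =>
    hb (i + 1) (Nat.succ_le_of_lt (mem_range.1 hi))
  have hY1 : ((Y1 m r : ℕ) : ZMod p) = ∑ i ∈ range m, ((r % 2 ^ (i + 1) : ℕ) : ZMod p) := by
    unfold Y1
    rw [Nat.cast_sum]
  have hY2 : ((Y2 m r : ℕ) : ZMod p) = ∑ i ∈ range m, ((i : ZMod p) + 1) * ((r % 2 ^ (i + 1) : ℕ) : ZMod p) := by
    unfold Y2
    rw [Nat.cast_sum]
    refine Finset.sum_congr rfl fun i _ => ?_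
    rw [Nat.cast_mul, Nat.cast_add, Nat.cast_one]
  have hVV : ((VV m r : ℕ) : ZMod p) = ∑ i ∈ range m, ((r % 2 ^ (i + 1) : ℕ) : ZMod p) *
      (2 ^ (i + 1) - ((r % 2 ^ (i + 1) : ℕ) : ZMod p)) := by
    unfold VV
    rw [Nat.cast_sum]
    refine Finset.sum_congr rfl fun i _ => ?_
    rw [Nat.cast_mul, Nat.cast_sub (Nat.mod_lt _ (by positivity)).le, Nat.cast_pow, Nat.cast_ofNat]
  have hC : C3 = q2 ^ 2 * ∑ i ∈ range m, ((i : ZMod p) + 1) ^ 2 := by
    apply mul_left_cancel₀ h6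
    rw [hC3, mul_left_comm, sum_sq]
    ring
  have hlin := sum_lin (R := ZMod p) m
  have hgeo := sum_geo (R := ZMod p) m
  have hling := sum_ling (R := ZMod p) m
  refine ⟨?_, ?_, ?_, ?_, ?_⟩
  · rw [hrefl (fun i => 2 * qj p i + bj p i)]
    have h8 : ∑ i ∈ range m, (2 * qj p (j + (m - (i + 1))) + bj p (j + (m - (i + 1)))) =
        ∑ i ∈ range m, (2 * Q - q2 * 2 * ((i : ZMod p) + 1) - 2 * β * ((r % 2 ^ (i + 1) : ℕ) : ZMod p) +
          β * 2 ^ (i + 1)) := by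
      refine Finset.sum_congr rfl fun i hi => ?_
      rw [hqi i hi, hbi i hi]
      ring
    rw [h8, Finset.sum_add_distrib, Finset.sum_sub_distrib, Finset.sum_sub_distrib]
    simp only [← Finset.mul_sum]
    rw [Finset.sum_const, card_range, nsmul_eq_mul, hgeo, ← hY1]
    linear_combination -q2 * hlin
  · rw [hrefl (fun i => qj p i * (qj p i + bj p i))]
    have h8 : ∑ i ∈ range m, (qj p (j + (m - (i + 1))) * (qj p (j + (m - (i + 1))) + bj p (j + (m - (i + 1))))) =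
        ∑ i ∈ range m, (Q ^ 2 - Q * q2 * 2 * ((i : ZMod p) + 1) + q2 ^ 2 * ((i : ZMod p) + 1) ^ 2 +
          β * Q * 2 ^ (i + 1) - 2 * β * Q * ((r % 2 ^ (i + 1) : ℕ) : ZMod p) -
          β * q2 * (((i : ZMod p) + 1) * 2 ^ (i + 1)) +
          2 * β * q2 * (((i : ZMod p) + 1) * ((r % 2 ^ (i + 1) : ℕ) : ZMod p)) -
          β ^ 2 * (((r % 2 ^ (i + 1) : ℕ) : ZMod p) * (2 ^ (i + 1) - ((r % 2 ^ (i + 1) : ℕ) : ZMod p)))) := by
      refine Finset.sum_congr rfl fun i hi => ?_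
      rw [hqi i hi, hbi i hi]
      ring
    rw [h8, Finset.sum_sub_distrib, Finset.sum_add_distrib, Finset.sum_sub_distrib, Finset.sum_sub_distrib,
      Finset.sum_add_distrib, Finset.sum_add_distrib, Finset.sum_sub_distrib]
    simp only [← Finset.mul_sum]
    rw [Finset.sum_const, card_range, nsmul_eq_mul, hgeo, hling, ← hY1, ← hY2, ← hVV, ← hC]
    linear_combination -Q * q2 * hlin
  · have h9 := hq m le_rfl
    rw [Nat.sub_self, Nat.add_zero] at h9
    have h10 : r % 2 ^ m = r := by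
      apply Nat.mod_eq_of_lt
      rw [hr, Nat.div_lt_iff_lt_mul hp0]
      exact Nat.mul_lt_mul_of_pos_left (Nat.mod_lt _ hp0) (by positivity)
    rw [h9, h10]
    ring
  · have h9 := hb m le_rfl
    rw [Nat.sub_self, Nat.add_zero] at h9
    exact h9.symm
  · rw [Nat.mul_mod, Nat.mod_mod, ← Nat.mul_mod, ← pow_add, add_comm m j]

end Pool.Agent.H35L
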