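import Pool.Agent.H35L.Stm

set_option autoImplicit false

namespace Pool.Agent.H35L

open Finset

theorem sum_lt_pow_conv (X : ℕ) (c : ℕ → ℕ) (k : ℕ) (h : ∀ n, n < k → c n < X) :
    ∑ n ∈ range k, c n * X ^ n < X ^ k := by
  induction k with
  | zero => simp
  | succ k ih =>
    rw [sum_range_succ, pow_succ]
    have h1 := ih (fun n hn => h n (by omega))
    have h2 : c k + 1 ≤ X := h k (by omega)
    calc ∑ n ∈ range k, c n * X ^ n + c k * X ^ k < X ^ k + c k * X ^ k := by omega
      _ = (c k + 1) * X ^ k := by ring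
      _ ≤ X * X ^ k := Nat.mul_le_mul_right _ h2
      _ = X ^ k * X := by ring

open Polynomial in
theorem conv_poly (X m : ℕ) (u v : ℕ → ℕ) (hm : 0 < m) :
    ∃ c : ℕ → ℕ, (∀ n, n < m → c n = ∑ i ∈ range (n + 1), u i * v (n - i)) ∧
      (∑ k ∈ range m, u k * X ^ k) * (∑ k ∈ range m, v k * X ^ k) =
        ∑ n ∈ range (2 * m), c n * X ^ n := by
  let P : ℕ[X] := ∑ k ∈ range m, Polynomial.monomial k (u k)
  let Q : ℕ[X] := ∑ k ∈ range m, Polynomial.monomial k (v k)
  have hP : ∀ i, P.coeff i = if i < m then u i else 0 := by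
    intro i
    simp only [P, Polynomial.finsetSum_coeff, Polynomial.coeff_monomial]
    rw [Finset.sum_ite_eq' (range m) i u]
    simp
  have hQ : ∀ i, Q.coeff i = if i < m then v i else 0 := by
    intro i
    simp only [Q, Polynomial.finsetSum_coeff, Polynomial.coeff_monomial]
    rw [Finset.sum_ite_eq' (range m) i v]
    simp
  have eP : P.eval X = ∑ k ∈ range m, u k * X ^ k := by
    simp [P, Polynomial.eval_finsetSum, Polynomial.eval_monomial]
  have eQ : Q.eval X = ∑ k ∈ range m, v k * X ^ k := by
    simp [Q, Polynomial.eval_finsetSum, Polynomial.eval_monomial]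
  have dP : P.natDegree < m := by
    have h1 : P.degree < m := by
      rw [Polynomial.degree_lt_iff_coeff_zero]
      intro i hi
      rw [hP, if_neg (by omega)]
    by_contra hh
    push Not at hh
    have h2 : 0 < P.natDegree := by omega
    have h3 : P ≠ 0 := by
      rintro h3
      rw [h3] at h2
      simp at h2
    rw [Polynomial.degree_eq_natDegree h3] at h1
    have h4 : P.natDegree < m := by exact_mod_cast h1
    omega
  have dQ : Q.natDegree < m := by
    have h1 : Q.degree < m := by
      rw [Polynomial.degree_lt_iff_coeff_zero]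
      intro i hi
      rw [hQ, if_neg (by omega)]
    by_contra hh
    push Not at hh
    have h2 : 0 < Q.natDegree := by omega
    have h3 : Q ≠ 0 := by
      rintro h3
      rw [h3] at h2
      simp at h2
    rw [Polynomial.degree_eq_natDegree h3] at h1
    have h4 : Q.natDegree < m := by exact_mod_cast h1
    omega
  refine ⟨fun n => (P * Q).coeff n, ?_, ?_⟩
  · intro n hn
    simp only [Polynomial.coeff_mul]
    rw [Finset.Nat.sum_antidiagonal_eq_sum_range_succ (fun i j => P.coeff i * Q.coeff j)]
    refine Finset.sum_congr rfl (fun i hi => ?_)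
    rw [mem_range] at hi
    rw [hP, hQ, if_pos (by omega), if_pos (by omega)]
  · rw [← eP, ← eQ, ← Polynomial.eval_mul]
    refine Polynomial.eval_eq_sum_range' ?_ X
    have := Polynomial.natDegree_mul_le (p := P) (q := Q)
    omega

theorem t_CONV : S_CONV := by
  intro W m M u v hm hM hb
  simp only [pow_mul]
  set X := 2 ^ W with hX
  obtain ⟨c, hc, he⟩ := conv_poly X m u v hm
  rw [he]
  have hlt : ∀ n, n < m → c n < X := by
    intro n hn
    rw [hc n hn]
    calc ∑ i ∈ range (n + 1), u i * v (n - i) ≤ ∑ i ∈ range (n + 1), M := by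
          refine Finset.sum_le_sum (fun i hi => ?_)
          rw [mem_range] at hi
          exact hb _ _ (by omega) (by omega)
      _ = (n + 1) * M := by simp
      _ ≤ m * M := Nat.mul_le_mul_right _ hn
      _ < X := hM
  obtain ⟨l, rfl⟩ : ∃ l, m = l + 1 := ⟨m - 1, by omega⟩
  have h2 : 2 * (l + 1) = l + (l + 1 + 1) := by ring
  rw [h2, Finset.sum_range_add, Nat.add_sub_cancel, Finset.sum_range_succ']
  have hL := sum_lt_pow_conv X c l (fun n hn => hlt n (by omega))
  have hT : (∑ k ∈ range (l + 1), c (l + (k + 1)) * X ^ (l + (k + 1)) + c (l + 0) * X ^ (l + 0)) =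
      X ^ l * (c l + X * ∑ k ∈ range (l + 1), c (l + (k + 1)) * X ^ k) := by
    rw [mul_add, Finset.mul_sum, Finset.mul_sum, add_comm]
    congr 1
    · rw [add_zero, mul_comm]
    · refine Finset.sum_congr rfl (fun k _ => ?_)
      rw [pow_add, pow_succ]
      ring
  rw [hT, Nat.add_mul_div_left _ _ (by positivity), Nat.div_eq_of_lt hL, zero_add,
    Nat.add_mul_mod_self_left, Nat.mod_eq_of_lt (hlt l (by omega)), hc l (by omega)]

end Pool.Agent.H35L
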