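import Pool.Agent.H35L.Stm

/-!
# Project LP: the step function for the kernel computation

The state `(a, β, Q, t1, t2)` (numbers below `P < B`) is encoded as `t2 + B (t1 + B (Q + B (β + B a)))`.
One step does `m` doublings. The operations are written with `Nat.add`, `Nat.mul`, ... so that
the kernel evaluates them directly.
-/

set_option autoImplicit false

namespace Pool.Agent.H35L

/-- The Lerch prime. -/
def P : ℕ := 42447347
/-- `P - 1` -/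
def Pm1 : ℕ := 42447346
/-- `P - 2` -/
def Pm2 : ℕ := 42447345
/-- Base of the encoding. -/
def B : ℕ := 67108864
/-- The Fermat quotient of 2. -/
def q2v : ℕ := 40742170

/-- Parameters of a step. -/
structure Prm where
  m : ℕ
  m2 : ℕ
  c2m : ℕ
  inv : ℕ
  cm : ℕ
  C1 : ℕ
  C3 : ℕ
  E0 : ℕ
  E1 : ℕ
  rep : ℕ
  mask : ℕ
  maskr : ℕ
  powr : ℕ
  lin : ℕ
  sh : ℕ
  cW : ℕ

/-- Encoding. -/
def enc (a β Q t1 t2 : ℕ) : ℕ :=
  Nat.add t2 (Nat.mul B (Nat.add t1 (Nat.mul B (Nat.add Q (Nat.mul B (Nat.add β (Nat.mul B a)))))))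

/-- New value of `t1`. -/
def nt1 (x : Prm) (β Q t1 Z : ℕ) : ℕ :=
  Nat.mod (Nat.add t1 (Nat.add (Nat.mul x.m2 Q) (Nat.add x.C1 (Nat.mul β Z)))) P

/-- New value of `t2`. -/
def nt2 (x : Prm) (β Q t2 Z Y2 V : ℕ) : ℕ :=
  Nat.mod (Nat.add t2 (Nat.add (Nat.mul (Nat.mul x.m Q) Q) (Nat.add (Nat.mul x.C1 Q) (Nat.add x.C3
    (Nat.add (Nat.mul β (Nat.add (Nat.mul Q Z) (Nat.mul q2v (Nat.add x.E1 (Nat.mul 2 Y2)))))
      (Nat.mul (Nat.mul (Nat.mul β β) Pm1) V)))))) P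

/-- Fourth part of a step. -/
def stp4 (x : Prm) (a β Q t1 t2 Z Y2 V : ℕ) : ℕ :=
  enc a β Q (nt1 x β Q t1 Z) (nt2 x β Q t2 Z Y2 V)

/-- Third part of a step. -/
def stp3 (x : Prm) (a β Q t1 t2 Y Yr : ℕ) : ℕ :=
  stp4 x a β Q t1 t2 (Nat.add x.E0 (Nat.mul Pm2 (Nat.mod (Nat.shiftRight (Nat.mul Y x.rep) x.sh) x.cW)))
    (Nat.mod (Nat.shiftRight (Nat.mul Y x.lin) x.sh) x.cW)
    (Nat.mod (Nat.shiftRight (Nat.mul Y (Nat.sub x.powr Yr)) x.sh) x.cW)

/-- Second part of a step. -/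
def stp2 (x : Prm) (a r β Q t1 t2 : ℕ) : ℕ :=
  stp3 x a β Q t1 t2 (Nat.land (Nat.mul r x.rep) x.mask) (Nat.land (Nat.mul r x.rep) x.maskr)

/-- First part of a step. -/
def stp1 (x : Prm) (A β q t1 t2 : ℕ) : ℕ :=
  stp2 x (Nat.mod A P) (Nat.div A P) β
    (Nat.mod (Nat.add q (Nat.add x.cm (Nat.mul β (Nat.div A P)))) P) t1 t2

/-- A step on decoded arguments `c1 = c / B`, `c2 = c / B^2`, `c3 = c / B^3`. -/
def stp0 (x : Prm) (c c1 c2 c3 : ℕ) : ℕ :=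
  stp1 x (Nat.mul x.c2m (Nat.div c3 B)) (Nat.mod (Nat.mul (Nat.mod c3 B) x.inv) P) (Nat.mod c2 B)
    (Nat.mod c1 B) (Nat.mod c B)

/-- Auxiliary. -/
def stpb (x : Prm) (c c1 c2 : ℕ) : ℕ := stp0 x c c1 c2 (Nat.div c2 B)
/-- Auxiliary. -/
def stpa (x : Prm) (c c1 : ℕ) : ℕ := stpb x c c1 (Nat.div c1 B)
/-- A step. -/
def stp (x : Prm) (c : ℕ) : ℕ := stpa x c (Nat.div c B)

/-- `2 ^ n` iterations of `f`; the intermediate values are evaluated. -/
def pw (f : ℕ → ℕ) (n : ℕ) : ℕ → ℕ :=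
  Nat.rec f (fun _ ih c => Nat.rec (motive := fun _ => ℕ) 0 (fun k _ => ih k) (Nat.succ (ih c))) n

/-- Parameters for 64 doublings. -/
def x64 : Prm where
  m := 64
  m2 := 128
  c2m := 2 ^ 64
  inv := 3703094
  cm := 18210713
  C1 := 4829371
  C3 := 41386836
  E0 := 4263034
  E1 := 28560159
  rep := repW 136 64
  mask := maskW 136 64
  maskr := maskR 136 64 64
  powr := powR 136 64 64
  lin := linR 136 64 64
  sh := 136 * 63
  cW := 2 ^ 136

/-- Parameters for 57 doublings. -/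
def x57 : Prm where
  m := 57
  m2 := 114
  c2m := 2 ^ 57
  inv := 7075215
  cm := 30146952
  C1 := 34265358
  C3 := 20901844
  E0 := 35848252
  E1 := 29970430
  rep := repW 136 57
  mask := maskW 136 57
  maskr := maskR 136 57 57
  powr := powR 136 57 57
  lin := linR 136 57 57
  sh := 136 * 56
  cW := 2 ^ 136

end Pool.Agent.H35L
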