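import Pool.Agent.H35L.Stm

/-!
# Project LP, piece FQ: rules for Fermat quotients
-/

set_option autoImplicit false

namespace Pool.Agent.H35L

open Finset

namespace FQP

theorem fq_eq {p : ℕ} (hp : 0 < p) {z x : ℤ} (h : (p : ℤ) ^ 2 ∣ z ^ (p - 1) - 1 - p * x) :
    fq p z = (x : ZMod p) := by
  obtain ⟨y, hy⟩ := h
  have hp' : (p : ℤ) ≠ 0 := by exact_mod_cast hp.ne'
  have h1 : z ^ (p - 1) - 1 = (p : ℤ) * (x + p * y) := by linear_combination hy
  unfold fq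
  rw [h1, Int.mul_ediv_cancel_left _ hp']
  push_cast
  rw [ZMod.natCast_self]
  ring

theorem exists_q {p : ℕ} (hp : p.Prime) {z : ℤ} (hz : (z : ZMod p) ≠ 0) :
    ∃ Q : ℤ, z ^ (p - 1) = 1 + p * Q ∧ fq p z = (Q : ZMod p) := by
  haveI := Fact.mk hp
  have h1 : ((z ^ (p - 1) - 1 : ℤ) : ZMod p) = 0 := by
    push_cast
    rw [ZMod.pow_card_sub_one_eq_one hz, sub_self]
  rw [ZMod.intCast_zmod_eq_zero_iff_dvd] at h1
  obtain ⟨Q, hQ⟩ := h1
  refine ⟨Q, by linear_combination hQ, fq_eq hp.pos ?_⟩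
  rw [hQ, sub_self]
  exact dvd_zero _

theorem add_pow_dvd (p : ℤ) (z k : ℤ) (n : ℕ) :
    p ^ 2 ∣ (z + p * k) ^ n - z ^ n - n * (p * k) * z ^ (n - 1) := by
  have h : ∀ n : ℕ, ∃ c : ℤ, (z + p * k) ^ (n + 1) =
      z ^ (n + 1) + (n + 1) * (p * k) * z ^ n + p ^ 2 * c := by
    intro n
    induction n with
    | zero => exact ⟨0, by simp⟩
    | succ n ih =>
      obtain ⟨c, hc⟩ := ih
      refine ⟨c * (z + p * k) + (n + 1) * k ^ 2 * z ^ n, ?_⟩
      rw [pow_succ, hc]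
      push_cast
      ring
  rcases n with _ | n
  · simp
  · obtain ⟨c, hc⟩ := h n
    refine ⟨c, ?_⟩
    rw [hc, Nat.add_sub_cancel]
    push_cast
    ring

end FQP

open FQP in
theorem t_FQ : S_FQ := by
  intro p hp h3
  haveI := Fact.mk hp
  refine ⟨?_, ?_, ?_, ?_⟩
  · intro z w hz hw
    obtain ⟨Q, hQ, hQ'⟩ := exists_q hp hz
    obtain ⟨R, hR, hR'⟩ := exists_q hp hw
    rw [hQ', hR', ← Int.cast_add]
    refine fq_eq hp.pos ⟨Q * R, ?_⟩
    rw [mul_pow, hQ, hR]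
    ring
  · intro z k hz
    obtain ⟨Q, hQ, hQ'⟩ := exists_q hp hz
    obtain ⟨c, hc⟩ := add_pow_dvd (p : ℤ) z k (p - 1)
    have hp1 : ((p - 1 : ℕ) : ℤ) = p - 1 := by
      rw [Nat.cast_sub hp.one_le, Nat.cast_one]
    have h1 : fq p (z + p * k) = ((Q - k * z ^ (p - 2) : ℤ) : ZMod p) := by
      refine fq_eq hp.pos ⟨c + k * z ^ (p - 2), ?_⟩
      have e : p - 1 - 1 = p - 2 := by omega
      rw [e, hp1] at hc
      linear_combination hc + hQ
    rw [h1, hQ']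
    push_cast
    have h2 : (z : ZMod p) ^ (p - 2) = (z : ZMod p)⁻¹ := by
      apply eq_inv_of_mul_eq_one_left
      rw [← pow_succ]
      have e : p - 2 + 1 = p - 1 := by omega
      rw [e]
      exact ZMod.pow_card_sub_one_eq_one hz
    rw [h2]
  · intro z
    unfold fq
    have h2 : Even (p - 1) := hp.even_sub_one (by omega)
    rw [h2.neg_pow]
  · unfold fq
    simp

end Pool.Agent.H35L
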