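import Pool.Agent.H35L.Def

/-! # Project LP: kernel computation, part 1 -/

set_option autoImplicit false

namespace Pool.Agent.H35L

theorem k0 : pw (stp x64) 15 (enc 1 1 0 0 0) =
    enc 28540293 15284517 28931593 10391903 31396333 := by decide +kernel

theorem k1 : pw (stp x64) 15 (enc 28540293 15284517 28931593 10391903 31396333) =
    enc 35377097 14975717 14338048 37724253 7728521 := by decide +kernel

theorem k2 : pw (stp x64) 15 (enc 35377097 14975717 14338048 37724253 7728521) =
    enc 40532290 3981088 1938536 24920395 5781686 := by decide +kernel

theorem k3 : pw (stp x64) 15 (enc 40532290 3981088 1938536 24920395 5781686) =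
    enc 19736521 13685097 196299 2300491 39840317 := by decide +kernel

theorem k4 : pw (stp x64) 15 (enc 19736521 13685097 196299 2300491 39840317) =
    enc 34560843 13774511 32744016 34103841 25666783 := by decide +kernel

end Pool.Agent.H35L
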