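import Pool.Agent.H35L.Def

/-! # Project LP: kernel computation, part 2 -/

set_option autoImplicit false

namespace Pool.Agent.H35L

theorem k5 : pw (stp x64) 15 (enc 34560843 13774511 32744016 34103841 25666783) =
    enc 34979796 28793537 32976882 12092368 9956646 := by decide +kernel

theorem k6 : pw (stp x64) 15 (enc 34979796 28793537 32976882 12092368 9956646) =
    enc 40729248 23544913 3112885 7676455 30974030 := by decide +kernel

theorem k7 : pw (stp x64) 15 (enc 40729248 23544913 3112885 7676455 30974030) =
    enc 41496699 25095403 33473146 14544150 1683196 := by decide +kernel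

theorem k8 : pw (stp x64) 15 (enc 41496699 25095403 33473146 14544150 1683196) =
    enc 19927025 34686592 9551825 23854517 23698781 := by decide +kernel

theorem k9 : pw (stp x64) 15 (enc 19927025 34686592 9551825 23854517 23698781) =
    enc 36308632 16592594 19702044 30539533 25868308 := by decide +kernel

theorem k10 : pw (stp x64) 0 (pw (stp x64) 1 (pw (stp x64) 5 (pw (stp x64) 6 (pw (stp x64) 8
    (pw (stp x64) 9 (pw (stp x64) 10 (pw (stp x64) 11 (enc 36308632 16592594 19702044 30539533 25868308)))))))) =
    enc 35372132 24523220 41895806 14328593 38310249 := by decide +kernel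

theorem k11 : stp x57 (enc 35372132 24523220 41895806 14328593 38310249) =
    enc 42447346 42447346 1 34227565 26431305 := by decide +kernel

end Pool.Agent.H35L
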