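import Pool.Agent.H35L.Def

/-!
# Project LP: numerical facts
-/

set_option autoImplicit false

namespace Pool.Agent.H35L

theorem dbl {M k e r s : ℕ} (h : 2 ^ k % M = r) (he : e = k + k) (hs : r * r % M = s) :
    2 ^ e % M = s := by
  rw [he, pow_add, Nat.mul_mod, h, hs]

theorem dbl1 {M k e r s : ℕ} (h : 2 ^ k % M = r) (he : e = k + k + 1) (hs : r * r * 2 % M = s) :
    2 ^ e % M = s := by
  rw [he, pow_succ, pow_add, Nat.mul_mod, Nat.mul_mod (2 ^ k), h, ← Nat.mul_mod, hs.symm,
    Nat.mul_mod (r * r)]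

theorem pow_fact : 2 ^ 42447346 % 1801777267338409 = 1729397027522991 := by
  have h0 : 2 ^ 1 % 1801777267338409 = 2 := by norm_num
  have h1 : 2 ^ 2 % 1801777267338409 = 4 := dbl h0 (by norm_num) (by norm_num)
  have h2 : 2 ^ 5 % 1801777267338409 = 32 := dbl1 h1 (by norm_num) (by norm_num)
  have h3 : 2 ^ 10 % 1801777267338409 = 1024 := dbl h2 (by norm_num) (by norm_num)
  have h4 : 2 ^ 20 % 1801777267338409 = 1048576 := dbl h3 (by norm_num) (by norm_num)
  have h5 : 2 ^ 40 % 1801777267338409 = 1099511627776 := dbl h4 (by norm_num) (by norm_num)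
  have h6 : 2 ^ 80 % 1801777267338409 = 249875346345082 := dbl h5 (by norm_num) (by norm_num)
  have h7 : 2 ^ 161 % 1801777267338409 = 1478567363911980 := dbl1 h6 (by norm_num) (by norm_num)
  have h8 : 2 ^ 323 % 1801777267338409 = 149214086107463 := dbl1 h7 (by norm_num) (by norm_num)
  have h9 : 2 ^ 647 % 1801777267338409 = 528097962426164 := dbl1 h8 (by norm_num) (by norm_num)
  have h10 : 2 ^ 1295 % 1801777267338409 = 674180741118599 := dbl1 h9 (by norm_num) (by norm_num)
  have h11 : 2 ^ 2590 % 1801777267338409 = 598139560324751 := dbl h10 (by norm_num) (by norm_num)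
  have h12 : 2 ^ 5181 % 1801777267338409 = 622924309395231 := dbl1 h11 (by norm_num) (by norm_num)
  have h13 : 2 ^ 10363 % 1801777267338409 = 1389145942806921 := dbl1 h12 (by norm_num) (by norm_num)
  have h14 : 2 ^ 20726 % 1801777267338409 = 918195091382096 := dbl h13 (by norm_num) (by norm_num)
  have h15 : 2 ^ 41452 % 1801777267338409 = 973896316682227 := dbl h14 (by norm_num) (by norm_num)
  have h16 : 2 ^ 82904 % 1801777267338409 = 714002865011704 := dbl h15 (by norm_num) (by norm_num)
  have h17 : 2 ^ 165809 % 1801777267338409 = 873513833859543 := dbl1 h16 (by norm_num) (by norm_num)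
  have h18 : 2 ^ 331619 % 1801777267338409 = 1741145766344446 := dbl1 h17 (by norm_num) (by norm_num)
  have h19 : 2 ^ 663239 % 1801777267338409 = 897458941375046 := dbl1 h18 (by norm_num) (by norm_num)
  have h20 : 2 ^ 1326479 % 1801777267338409 = 505496788133298 := dbl1 h19 (by norm_num) (by norm_num)
  have h21 : 2 ^ 2652959 % 1801777267338409 = 851606729682862 := dbl1 h20 (by norm_num) (by norm_num)
  have h22 : 2 ^ 5305918 % 1801777267338409 = 759052903906397 := dbl h21 (by norm_num) (by norm_num)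
  have h23 : 2 ^ 10611836 % 1801777267338409 = 1400671526221807 := dbl h22 (by norm_num) (by norm_num)
  have h24 : 2 ^ 21223673 % 1801777267338409 = 937078753576913 := dbl1 h23 (by norm_num) (by norm_num)
  have h25 : 2 ^ 42447346 % 1801777267338409 = 1729397027522991 := dbl h24 (by norm_num) (by norm_num)
  exact h25

theorem P_prime : P.Prime := by
  unfold P
  norm_num

theorem N_prime : Nat.Prime 21223673 := by norm_num


theorem P_eq : P = 2 * 21223673 + 1 := rfl

theorem fq_two : fq P 2 = (q2v : ZMod P) := by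
  have h := pow_fact
  have h1 : (2 : ℕ) ^ 42447346 = 1801777267338409 * (2 ^ 42447346 / 1801777267338409) + 1729397027522991 := by
    conv_lhs => rw [← Nat.div_add_mod (2 ^ 42447346) 1801777267338409, h]
  generalize hk : (2 : ℕ) ^ 42447346 / 1801777267338409 = k at h1
  unfold fq
  have h2 : ((2 : ℤ) ^ (P - 1) - 1) / (P : ℤ) = (q2v : ℤ) + (P : ℤ) * (k : ℤ) := by
    apply Int.ediv_eq_of_eq_mul_left
    · exact_mod_cast P_prime.pos.ne'
    · have h3 : (2 : ℤ) ^ (P - 1) = 1801777267338409 * (k : ℤ) + 1729397027522991 := by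
        have : P - 1 = 42447346 := rfl
        rw [this]
        exact_mod_cast h1
      rw [h3]
      unfold P q2v
      push_cast
      ring
  rw [h2]
  push_cast
  simp

theorem pow_fact2 : 2 ^ 21223673 % 42447347 = 42447346 := by
  have h0 : 2 ^ 1 % 42447347 = 2 := by norm_num
  have h1 : 2 ^ 2 % 42447347 = 4 := dbl h0 (by norm_num) (by norm_num)
  have h2 : 2 ^ 5 % 42447347 = 32 := dbl1 h1 (by norm_num) (by norm_num)
  have h3 : 2 ^ 10 % 42447347 = 1024 := dbl h2 (by norm_num) (by norm_num)
  have h4 : 2 ^ 20 % 42447347 = 1048576 := dbl h3 (by norm_num) (by norm_num)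
  have h5 : 2 ^ 40 % 42447347 = 40445782 := dbl h4 (by norm_num) (by norm_num)
  have h6 : 2 ^ 80 % 42447347 = 39392018 := dbl h5 (by norm_num) (by norm_num)
  have h7 : 2 ^ 161 % 42447347 = 29492002 := dbl1 h6 (by norm_num) (by norm_num)
  have h8 : 2 ^ 323 % 42447347 = 30829385 := dbl1 h7 (by norm_num) (by norm_num)
  have h9 : 2 ^ 647 % 42447347 = 33904455 := dbl1 h8 (by norm_num) (by norm_num)
  have h10 : 2 ^ 1295 % 42447347 = 13212308 := dbl1 h9 (by norm_num) (by norm_num)
  have h11 : 2 ^ 2590 % 42447347 = 28570588 := dbl h10 (by norm_num) (by norm_num)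
  have h12 : 2 ^ 5181 % 42447347 = 26411850 := dbl1 h11 (by norm_num) (by norm_num)
  have h13 : 2 ^ 10363 % 42447347 = 14813064 := dbl1 h12 (by norm_num) (by norm_num)
  have h14 : 2 ^ 20726 % 42447347 = 16407113 := dbl h13 (by norm_num) (by norm_num)
  have h15 : 2 ^ 41452 % 42447347 = 7737923 := dbl h14 (by norm_num) (by norm_num)
  have h16 : 2 ^ 82904 % 42447347 = 31175322 := dbl h15 (by norm_num) (by norm_num)
  have h17 : 2 ^ 165809 % 42447347 = 24862476 := dbl1 h16 (by norm_num) (by norm_num)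
  have h18 : 2 ^ 331619 % 42447347 = 34776755 := dbl1 h17 (by norm_num) (by norm_num)
  have h19 : 2 ^ 663239 % 42447347 = 32119768 := dbl1 h18 (by norm_num) (by norm_num)
  have h20 : 2 ^ 1326479 % 42447347 = 34416433 := dbl1 h19 (by norm_num) (by norm_num)
  have h21 : 2 ^ 2652959 % 42447347 = 38919842 := dbl1 h20 (by norm_num) (by norm_num)
  have h22 : 2 ^ 5305918 % 42447347 = 21541363 := dbl h21 (by norm_num) (by norm_num)
  have h23 : 2 ^ 10611836 % 42447347 = 39886428 := dbl h22 (by norm_num) (by norm_num)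
  have h24 : 2 ^ 21223673 % 42447347 = 42447346 := dbl1 h23 (by norm_num) (by norm_num)
  exact h24

theorem natCast_ne {a b : ℕ} (h : a % 42447347 ≠ b % 42447347) : (a : ZMod P) ≠ (b : ZMod P) := by
  intro h'
  rw [ZMod.natCast_eq_natCast_iff'] at h'
  exact h h'

theorem natCast_eq {a b : ℕ} (h : a % 42447347 = b % 42447347) : (a : ZMod P) = (b : ZMod P) :=
  (ZMod.natCast_eq_natCast_iff' a b P).2 h

theorem order_two : orderOf (2 : ZMod P) = 2 * 21223673 := by
  have : Fact P.Prime := ⟨P_prime⟩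
  have h20 : (2 : ZMod P) ≠ 0 := by
    have := natCast_ne (a := 2) (b := 0) (by norm_num)
    exact_mod_cast this
  have hpow : (2 : ZMod P) ^ (2 * 21223673) = 1 := by
    have h := ZMod.pow_card_sub_one_eq_one (p := P) (a := (2 : ZMod P)) h20
    have e : 2 * 21223673 = P - 1 := rfl
    exact (congrArg (fun n => (2 : ZMod P) ^ n) e).trans h
  apply orderOf_eq_of_pow_and_pow_div_prime (by norm_num) hpow
  intro q hq hqd
  rcases (Nat.Prime.dvd_mul hq).1 hqd with h | h
  · have hq2 : q = 2 := (Nat.prime_dvd_prime_iff_eq hq Nat.prime_two).1 h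
    have e : 2 * 21223673 / q = 21223673 := by rw [hq2]
    intro h1
    have h1' : (2 : ZMod P) ^ 21223673 = 1 := (congrArg (fun n => (2 : ZMod P) ^ n) e).symm.trans h1
    have h2 := natCast_ne (a := 2 ^ 21223673) (b := 1) (by rw [pow_fact2]; norm_num)
    apply h2
    push_cast
    exact h1'
  · have hq2 : q = 21223673 := (Nat.prime_dvd_prime_iff_eq hq N_prime).1 h
    have e : 2 * 21223673 / q = 2 := by rw [hq2]
    intro h1
    have h1' : (2 : ZMod P) ^ 2 = 1 := (congrArg (fun n => (2 : ZMod P) ^ n) e).symm.trans h1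
    have h2 := natCast_ne (a := 2 ^ 2) (b := 1) (by norm_num)
    apply h2
    push_cast
    exact h1'

end Pool.Agent.H35L
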