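import Pool.Agent.H35L.Stm

set_option autoImplicit false

/-! Piece PACK of project LP (helper55). -/

namespace Pool.Agent.H35L

open Finset

namespace PackP

theorem land_split {t a b : ℕ} (x y : ℕ) (ha : a < 2 ^ t) (hb : b < 2 ^ t) :
    (a + x * 2 ^ t) &&& (b + y * 2 ^ t) = (a &&& b) + (x &&& y) * 2 ^ t := by
  apply Nat.eq_of_testBit_eq
  intro i
  rw [Nat.testBit_and, show a + x * 2 ^ t = 2 ^ t * x + a by ring,
    show b + y * 2 ^ t = 2 ^ t * y + b by ring,
    show (a &&& b) + (x &&& y) * 2 ^ t = 2 ^ t * (x &&& y) + (a &&& b) by ring,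
    Nat.testBit_two_pow_mul_add _ ha, Nat.testBit_two_pow_mul_add _ hb,
    Nat.testBit_two_pow_mul_add _ (Nat.and_lt_two_pow a hb)]
  split_ifs
  · rw [Nat.testBit_and]
  · rw [Nat.testBit_and]

theorem sum_lt (W : ℕ) (x : ℕ → ℕ) (n : ℕ) (hx : ∀ k < n, x k < 2 ^ W) :
    ∑ k ∈ range n, x k * 2 ^ (W * k) < 2 ^ (W * n) := by
  induction n with
  | zero => simp
  | succ n ih =>
    rw [sum_range_succ]
    have h1 := ih fun k hk => hx k (by omega)
    have h2 := hx n (by omega)
    have h3 : x n * 2 ^ (W * n) + 2 ^ (W * n) ≤ 2 ^ W * 2 ^ (W * n) := by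
      have : (x n + 1) * 2 ^ (W * n) ≤ 2 ^ W * 2 ^ (W * n) := Nat.mul_le_mul_right _ h2
      linarith
    rw [show W * (n + 1) = W + W * n by ring, pow_add]
    omega

theorem land_sum (W : ℕ) (x y : ℕ → ℕ) (n : ℕ) (hx : ∀ k < n, x k < 2 ^ W)
    (hy : ∀ k < n, y k < 2 ^ W) :
    (∑ k ∈ range n, x k * 2 ^ (W * k)) &&& (∑ k ∈ range n, y k * 2 ^ (W * k)) =
      ∑ k ∈ range n, (x k &&& y k) * 2 ^ (W * k) := by
  induction n with
  | zero => simp
  | succ n ih =>
    rw [sum_range_succ, sum_range_succ, sum_range_succ,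
      land_split _ _ (sum_lt W x n fun k hk => hx k (by omega))
        (sum_lt W y n fun k hk => hy k (by omega)),
      ih (fun k hk => hx k (by omega)) (fun k hk => hy k (by omega))]

theorem repW_eq (W n : ℕ) : repW W n = ∑ k ∈ range n, 2 ^ (W * k) := by
  induction n with
  | zero => rfl
  | succ n ih => rw [sum_range_succ, ← ih]; rfl

theorem maskW_eq (W n : ℕ) : maskW W n = ∑ k ∈ range n, (2 ^ (k + 1) - 1) * 2 ^ (W * k) := by
  induction n with
  | zero => rfl
  | succ n ih => rw [sum_range_succ, ← ih]; rfl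

theorem maskR_eq (W m n : ℕ) :
    maskR W m n = ∑ k ∈ range n, (2 ^ (m - k) - 1) * 2 ^ (W * k) := by
  induction n with
  | zero => rfl
  | succ n ih => rw [sum_range_succ, ← ih]; rfl

theorem powR_eq (W m n : ℕ) : powR W m n = ∑ k ∈ range n, 2 ^ (m - k) * 2 ^ (W * k) := by
  induction n with
  | zero => rfl
  | succ n ih => rw [sum_range_succ, ← ih]; rfl

theorem linR_eq (W m n : ℕ) : linR W m n = ∑ k ∈ range n, (m - k) * 2 ^ (W * k) := by
  induction n with
  | zero => rfl
  | succ n ih => rw [sum_range_succ, ← ih]; rfl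

end PackP

open PackP

theorem t_PACK : S_PACK := by
  intro W m r hm hW hr
  have hr' : r < 2 ^ W := hr.trans_le (Nat.pow_le_pow_right (by norm_num) hW.le)
  have h1 : r * repW W m = ∑ k ∈ range m, r * 2 ^ (W * k) := by rw [repW_eq, mul_sum]
  have hlt : ∀ s, s ≤ m → 2 ^ s - 1 < 2 ^ W := by
    intro s hs
    have h2 : 2 ^ s ≤ 2 ^ W := Nat.pow_le_pow_right (by norm_num) (hs.trans hW.le)
    have h3 : 0 < 2 ^ s := by positivity
    omega
  refine ⟨?_, ?_, powR_eq W m m, linR_eq W m m, repW_eq W m⟩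
  · show (r * repW W m) &&& (maskW W m) = _
    rw [h1, maskW_eq, land_sum W (fun _ => r) (fun k => 2 ^ (k + 1) - 1) m (fun _ _ => hr')
      (fun k hk => hlt _ (by omega))]
    exact sum_congr rfl fun k _ => by rw [Nat.and_two_pow_sub_one_eq_mod]
  · show (r * repW W m) &&& (maskR W m m) = _
    rw [h1, maskR_eq, land_sum W (fun _ => r) (fun k => 2 ^ (m - k) - 1) m (fun _ _ => hr')
      (fun k hk => hlt _ (by omega))]
    exact sum_congr rfl fun k _ => by rw [Nat.and_two_pow_sub_one_eq_mod]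

end Pool.Agent.H35L
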