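import Pool.Agent.H35L.Stm

/-!
# Project LP, piece RED: reduction to the moments of the Fermat quotients
-/

set_option autoImplicit false

namespace Pool.Agent.H35L

open Finset

namespace RED

theorem lemA (p : ℤ) (s : Finset ℕ) (f : ℕ → ℤ) :
    p ^ 3 ∣ 2 * ∏ i ∈ s, (1 + p * f i) -
      (2 + 2 * p * ∑ i ∈ s, f i + p ^ 2 * ((∑ i ∈ s, f i) ^ 2 - ∑ i ∈ s, f i ^ 2)) := by
  classical
  induction s using Finset.induction_on with
  | empty => simp
  | insert a s ha ih =>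
    obtain ⟨k, hk⟩ := ih
    rw [Finset.prod_insert ha, Finset.sum_insert ha, Finset.sum_insert ha]
    set A := ∏ i ∈ s, (1 + p * f i)
    set B := ∑ i ∈ s, f i
    set C := ∑ i ∈ s, f i ^ 2
    set x := f a
    refine ⟨k + x * (B ^ 2 - C) + p * x * k, ?_⟩
    have h2 : 2 * A = 2 + 2 * p * B + p ^ 2 * (B ^ 2 - C) + p ^ 3 * k := by linarith
    linear_combination (1 + p * x) * h2

theorem prod_Icc (n : ℕ) : ∏ x ∈ Icc 1 n, x = n.factorial := by
  induction n with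
  | zero => simp
  | succ n ih => rw [Finset.prod_Icc_succ_top (by omega), ih, Nat.factorial_succ, mul_comm]

end RED

open RED in
theorem t_RED : S_RED := by
  intro p hp hp3 hyp
  have hpZ : (0 : ℤ) < p := by exact_mod_cast hp.pos
  have hp0 : (p : ℤ) ≠ 0 := hpZ.ne'
  have hpp : Prime (p : ℤ) := Nat.prime_iff_prime_int.mp hp
  set s := Icc 1 (p - 1) with hs
  set Q : ℕ → ℤ := fun a => ((a : ℤ) ^ (p - 1) - 1) / (p : ℤ) with hQdef
  have hcard : s.card = p - 1 := by rw [hs, Nat.card_Icc]; omega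
  have hcardZ : ((s.card : ℕ) : ℤ) = p - 1 := by
    rw [hcard, Nat.cast_sub hp.one_le]; simp
  have hQ : ∀ a ∈ s, (a : ℤ) ^ (p - 1) = 1 + p * Q a := by
    intro a ha
    rw [hs, Finset.mem_Icc] at ha
    have hcop : IsCoprime (a : ℤ) (p : ℤ) := by
      rw [Nat.isCoprime_iff_coprime]
      refine (Nat.Prime.coprime_iff_not_dvd hp |>.mpr ?_).symm
      intro hd
      have := Nat.le_of_dvd (by omega) hd
      omega
    have h1 := Int.ModEq.pow_card_sub_one_eq_one hp hcop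
    have h2 : (p : ℤ) ∣ (a : ℤ) ^ (p - 1) - 1 := (Int.modEq_iff_dvd.mp h1.symm)
    have h3 := Int.mul_ediv_cancel' h2
    simp only [hQdef]
    linarith
  set E : ℤ := ∑ a ∈ s, Q a with hE
  set T : ℤ := ∑ a ∈ s, Q a ^ 2 with hT
  -- Wilson
  have hW : ∃ W : ℤ, (((p - 1).factorial : ℕ) : ℤ) = p * W - 1 := by
    have := Fact.mk hp
    have h1 := ZMod.wilsons_lemma p
    have h2 : ((((p - 1).factorial : ℕ) : ℤ) + 1 : ℤ) ≡ 0 [ZMOD p] := by
      rw [← ZMod.intCast_eq_intCast_iff]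
      push_cast
      rw [h1]
      simp
    obtain ⟨W, hW⟩ := (Int.modEq_zero_iff_dvd.mp h2)
    exact ⟨W, by linarith⟩
  obtain ⟨W, hW⟩ := hW
  have hA := lemA p s Q
  have hB := lemA p s (fun _ => -W)
  rw [← hE, ← hT] at hA
  have e1 : ∏ a ∈ s, (1 + (p : ℤ) * Q a) = (p * W - 1) ^ (p - 1) := by
    rw [← hW, ← prod_Icc, Nat.cast_prod, ← Finset.prod_pow]
    exact (Finset.prod_congr rfl hQ).symm
  have heven : Even (p - 1) := hp.even_sub_one (by omega)
  have e2 : ∏ a ∈ s, (1 + (p : ℤ) * (fun _ : ℕ => -W) a) = (p * W - 1) ^ (p - 1) := by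
    rw [Finset.prod_const, hcard]
    rw [← heven.neg_pow (p * W - 1 : ℤ)]
    congr 1
    ring
  rw [e1] at hA
  rw [e2] at hB
  simp only [Finset.sum_const, nsmul_eq_mul, hcardZ] at hB
  have h3 := dvd_sub hA hB
  have h4 : (p : ℤ) ^ 3 ∣ p * (2 * (E - W) + p * (E ^ 2 - T + 2 * W - (p - 1) * (p - 2) * W ^ 2)) := by
    rw [← dvd_neg]
    convert h3 using 1
    ring
  have h5 : (p : ℤ) ^ 2 ∣ 2 * (E - W) + p * (E ^ 2 - T + 2 * W - (p - 1) * (p - 2) * W ^ 2) := by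
    rw [pow_succ, mul_comm] at h4
    exact (mul_dvd_mul_iff_left hp0).mp h4
  have h2cop : IsCoprime (p : ℤ) 2 := by
    have : Nat.Coprime p 2 := by
      rw [Nat.coprime_comm, Nat.prime_two.coprime_iff_not_dvd]
      intro hd
      have := (Nat.prime_dvd_prime_iff_eq Nat.prime_two hp).mp hd
      omega
    exact_mod_cast Nat.isCoprime_iff_coprime.mpr this
  have h6 : (p : ℤ) ∣ E - W := by
    have h7 : (p : ℤ) ∣ 2 * (E - W) + p * (E ^ 2 - T + 2 * W - (p - 1) * (p - 2) * W ^ 2) :=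
      (Dvd.intro_left _ (by ring : (p : ℤ) * p = p ^ 2)).trans h5
    have h8 : (p : ℤ) ∣ 2 * (E - W) := (dvd_add_left (Dvd.intro _ rfl)).mp h7
    exact h2cop.dvd_of_dvd_mul_left h8
  -- the hypothesis
  have hhyp : (p : ℤ) ∣ T + E ^ 2 - 2 * E := by
    rw [← ZMod.intCast_zmod_eq_zero_iff_dvd]
    have e3 : ((E : ℤ) : ZMod p) = ∑ a ∈ s, fq p (a : ℤ) := by
      rw [hE]; push_cast
      rfl
    have e4 : ((T : ℤ) : ZMod p) = ∑ a ∈ s, fq p (a : ℤ) ^ 2 := by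
      rw [hT]; push_cast
      rfl
    push_cast
    rw [e3, e4]
    exact hyp
  have h9 : (p : ℤ) ∣ E ^ 2 - T + 2 * W - (p - 1) * (p - 2) * W ^ 2 := by
    obtain ⟨u, hu⟩ := hhyp
    obtain ⟨v, hv⟩ := h6
    have hWv : W = E - p * v := by linarith
    refine ⟨-u - 2 * v + 4 * E * v - 2 * p * v ^ 2 + (3 - p) * W ^ 2, ?_⟩
    have hTu : T = p * u - E ^ 2 + 2 * E := by linarith
    rw [hTu]
    have : W ^ 2 = E ^ 2 - 2 * E * (p * v) + p ^ 2 * v ^ 2 := by rw [hWv]; ring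
    linear_combination (2 : ℤ) * hWv - (2 : ℤ) * this
  have h10 : (p : ℤ) ^ 2 ∣ 2 * (E - W) := by
    have h11 : (p : ℤ) ^ 2 ∣ p * (E ^ 2 - T + 2 * W - (p - 1) * (p - 2) * W ^ 2) := by
      rw [sq]
      exact mul_dvd_mul_left _ h9
    exact (dvd_add_left h11).mp h5
  have h12 : (p : ℤ) ^ 2 ∣ E - W := (h2cop.pow_left).dvd_of_dvd_mul_left h10
  have e5 : (∑ a ∈ s, (a : ℤ) ^ (p - 1)) - p - (((p - 1).factorial : ℕ) : ℤ) = p * (E - W) := by
    rw [Finset.sum_congr rfl hQ, Finset.sum_add_distrib, Finset.sum_const, nsmul_eq_mul, hcardZ,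
      ← Finset.mul_sum, hW]
    ring
  rw [e5, pow_succ, mul_comm]
  exact mul_dvd_mul_left _ h12

end Pool.Agent.H35L
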