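import Pool.Agent.H35L.Stm

set_option autoImplicit false

namespace Pool.Agent.H35L

open Finset

theorem t_SWAR (h1 : S_PACK) (h2 : S_CONV) : S_SWAR := by
  intro W m r hm hW hr
  have hmW : m < W := by
    have h3 : 2 ^ (2 * m) < 2 ^ W := lt_of_le_of_lt (Nat.le_mul_of_pos_left _ hm) hW
    have h4 := (Nat.pow_lt_pow_iff_right (by norm_num : 1 < 2)).1 h3
    omega
  obtain ⟨p1, p2, p3, p4, p5⟩ := h1 W m r hm hmW hr
  have e1 : Nat.mul r (repW W m) = r * repW W m := rfl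
  have hsq : (2:ℕ) ^ (2 * m) = 2 ^ m * 2 ^ m := by rw [two_mul, pow_add]
  have hmle : m ≤ 2 ^ m := Nat.lt_two_pow_self.le
  have hone : 1 ≤ 2 ^ m := Nat.one_le_two_pow
  have hu : ∀ i, i < m → r % 2 ^ (i + 1) ≤ 2 ^ m := fun i hi =>
    (Nat.mod_lt _ (by positivity)).le.trans (Nat.pow_le_pow_right (by norm_num) hi)
  rw [e1, p1, p2, p3, p4, p5]
  have key : ∀ v : ℕ → ℕ, (∀ j, j < m → v j ≤ 2 ^ m) →
      Nat.mod (Nat.shiftRight (Nat.mul (∑ k ∈ range m, (r % 2 ^ (k + 1)) * 2 ^ (W * k))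
        (∑ k ∈ range m, v k * 2 ^ (W * k))) (W * (m - 1))) (2 ^ W) =
      ∑ k ∈ range m, (r % 2 ^ (k + 1)) * v (m - 1 - k) := by
    intro v hv
    have h3 := h2 W m (2 ^ (2 * m)) (fun k => r % 2 ^ (k + 1)) v hm hW (by
      intro i j hi hj
      rw [hsq]
      exact Nat.mul_le_mul (hu i hi) (hv j hj))
    rw [← h3]
    change (((_ * _) >>> (W * (m - 1))) % _ : ℕ) = _
    rw [Nat.shiftRight_eq_div_pow]
  refine ⟨?_, ?_, ?_⟩
  · have h3 := key (fun _ => 1) (fun j _ => hone)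
    simp only [one_mul, mul_one] at h3
    rw [h3]
    rfl
  · rw [key (fun k => m - k) (fun j _ => by omega)]
    unfold Y2
    refine Finset.sum_congr rfl (fun k hk => ?_)
    rw [mem_range] at hk
    have : m - (m - 1 - k) = k + 1 := by omega
    simp only [this]
    ring
  · have h4 : Nat.sub (∑ k ∈ range m, 2 ^ (m - k) * 2 ^ (W * k))
        (∑ k ∈ range m, (r % 2 ^ (m - k)) * 2 ^ (W * k)) =
        ∑ k ∈ range m, (2 ^ (m - k) - r % 2 ^ (m - k)) * 2 ^ (W * k) := by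
      change (_ - _ : ℕ) = _
      rw [Nat.sub_eq_iff_eq_add]
      · rw [← Finset.sum_add_distrib]
        refine Finset.sum_congr rfl (fun k _ => ?_)
        rw [← add_mul, Nat.sub_add_cancel (Nat.mod_lt _ (by positivity)).le]
      · exact Finset.sum_le_sum (fun k _ => Nat.mul_le_mul_right _ (Nat.mod_lt _ (by positivity)).le)
    rw [h4, key (fun k => 2 ^ (m - k) - r % 2 ^ (m - k)) (fun j _ =>
      (Nat.sub_le _ _).trans (Nat.pow_le_pow_right (by norm_num) (by omega)))]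
    unfold VV
    refine Finset.sum_congr rfl (fun k hk => ?_)
    rw [mem_range] at hk
    have : m - (m - 1 - k) = k + 1 := by omega
    simp only [this]

end Pool.Agent.H35L
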