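import Pool.Agent.H35L.Stm

/-!
# Project LP (helper35), piece WALK (helper33)
-/

set_option autoImplicit false
set_option linter.all false

namespace Pool.Agent.H35L

open Finset

theorem t_WALK (h : S_FQ) : S_WALK := by
  intro p N hp h3 hpN hord
  haveI : Fact p.Prime := ⟨hp⟩
  obtain ⟨h1, h2, hneg, hone⟩ := h p hp h3
  have hN : 0 < N := by omega
  have hcast : ∀ k : ℕ, 0 < k → k < p → ((k : ℕ) : ZMod p) ≠ 0 := by
    intro k hk0 hk hcon
    rw [ZMod.natCast_eq_zero_iff] at hcon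
    exact absurd (Nat.le_of_dvd hk0 hcon) (by omega)
  have h20 : (2 : ZMod p) ≠ 0 := by
    have := hcast 2 (by norm_num) (by omega)
    simpa using this
  have h2j : ∀ j : ℕ, (2 : ZMod p) ^ j ≠ 0 := fun j => pow_ne_zero _ h20
  have hpow : (2 : ZMod p) ^ (2 * N) = 1 := by rw [← hord]; exact pow_orderOf_eq_one _
  -- 2^N = -1
  have hhalf : (2 : ZMod p) ^ N = -1 := by
    have e1 : ((2 : ZMod p) ^ N - 1) * ((2 : ZMod p) ^ N + 1) = 0 := by
      have : (2 : ZMod p) ^ N * 2 ^ N = 1 := by rw [← pow_add, ← two_mul]; exact hpow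
      linear_combination this
    rcases mul_eq_zero.1 e1 with e | e
    · exfalso
      have e2 : (2 : ZMod p) ^ N = 1 := by linear_combination e
      have e3 := orderOf_dvd_of_pow_eq_one e2
      rw [hord] at e3
      have := Nat.le_of_dvd hN e3
      omega
    · linear_combination e
  -- values
  have hval : ∀ j : ℕ, ((2 : ZMod p) ^ j).val = 2 ^ j % p := by
    intro j
    have : (2 : ZMod p) ^ j = ((2 ^ j : ℕ) : ZMod p) := by push_cast; rfl
    rw [this, ZMod.val_natCast]
  have hA : ∀ j : ℕ, (((2 ^ j % p : ℕ) : ℤ) : ZMod p) = 2 ^ j := by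
    intro j
    have e : (((2 ^ j % p : ℕ) : ℤ) : ZMod p) = ((2 ^ j % p : ℕ) : ZMod p) := Int.cast_natCast _
    rw [e, ← hval, ZMod.natCast_zmod_val]
  have hfp : ∀ j : ℕ, fq p ((2 : ℤ) ^ j) = (j : ZMod p) * fq p 2 := by
    intro j
    induction j with
    | zero => simp [hone]
    | succ j ih =>
      rw [pow_succ, h1 _ _ (by push_cast; exact h2j j) (by push_cast; exact h20), ih]
      push_cast; ring
  have hq : ∀ j : ℕ, fq p ((2 ^ j % p : ℕ) : ℤ) = qj p j := by
    intro j
    have e1 : (2 : ℤ) ^ j = ((2 ^ j % p : ℕ) : ℤ) + p * ((2 ^ j / p : ℕ) : ℤ) := by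
      have := Nat.mod_add_div (2 ^ j) p
      have e : (((2 ^ j % p + p * (2 ^ j / p) : ℕ)) : ℤ) = ((2 ^ j : ℕ) : ℤ) := by rw [this]
      push_cast at e ⊢
      linarith
    have e2 := hfp j
    rw [e1, h2 _ _ (by rw [hA]; exact h2j j), hA] at e2
    unfold qj bj
    have e3 : ((((2 ^ j / p : ℕ) : ℤ)) : ZMod p) = ((2 ^ j / p : ℕ) : ZMod p) :=
      Int.cast_natCast _
    rw [e3] at e2
    rw [← e2]
    ring
  have hq2 : ∀ j : ℕ, fq p (((p - 2 ^ j % p : ℕ)) : ℤ) = qj p j + bj p j := by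
    intro j
    have hlt : 2 ^ j % p < p := Nat.mod_lt _ hp.pos
    have e1 : (((p - 2 ^ j % p : ℕ)) : ℤ) = -((2 ^ j % p : ℕ) : ℤ) + p * 1 := by
      rw [Nat.cast_sub hlt.le]; ring
    have e2 : ((-((2 ^ j % p : ℕ) : ℤ) : ℤ) : ZMod p) = -(2 ^ j) := by
      rw [Int.cast_neg, hA]
    rw [e1, h2 _ _ (by rw [e2]; exact neg_ne_zero.2 (h2j j)), hneg, hq, e2]
    unfold bj
    rw [inv_neg]
    push_cast
    ring
  -- the bijection
  have hinj : Set.InjOn (fun i : ℕ => ((2 : ZMod p) ^ i).val) (range (2 * N) : Set ℕ) := by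
    intro i hi j hj hij
    have e := ZMod.val_injective p hij
    simp only [coe_range, Set.mem_Iio] at hi hj
    refine pow_injOn_Iio_orderOf ?_ ?_ e
    · rw [Set.mem_Iio, hord]; exact hi
    · rw [Set.mem_Iio, hord]; exact hj
  have himg : (range (2 * N)).image (fun i : ℕ => ((2 : ZMod p) ^ i).val) = Icc 1 (p - 1) := by
    refine Finset.eq_of_subset_of_card_le ?_ ?_
    · intro a ha
      obtain ⟨i, -, rfl⟩ := mem_image.1 ha
      have e1 : ((2 : ZMod p) ^ i).val < p := ZMod.val_lt _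
      have e2 : ((2 : ZMod p) ^ i).val ≠ 0 := by
        rw [Ne, ZMod.val_eq_zero]; exact h2j i
      rw [mem_Icc]
      constructor
      · exact Nat.one_le_iff_ne_zero.2 e2
      · exact Nat.le_sub_one_of_lt e1
    · rw [card_image_of_injOn hinj, card_range, Nat.card_Icc]
      omega
  have hsum : ∀ φ : ZMod p → ZMod p, ∑ a ∈ Icc 1 (p - 1), φ (fq p (a : ℤ)) =
      ∑ j ∈ range N, (φ (qj p j) + φ (qj p j + bj p j)) := by
    intro φ
    rw [← himg, sum_image hinj, two_mul, sum_range_add, ← sum_add_distrib]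
    refine sum_congr rfl fun j _ => ?_
    have e1 : ((2 : ZMod p) ^ (N + j)).val = p - 2 ^ j % p := by
      rw [pow_add, hhalf, neg_one_mul, ZMod.neg_val, if_neg (h2j j), hval]
    rw [e1, hval, hq, hq2]
  refine ⟨?_, ?_⟩
  · rw [hsum (fun x => x)]
    exact sum_congr rfl fun j _ => by ring
  · rw [hsum (fun x => x ^ 2)]
    have hb : ∑ j ∈ range N, bj p j ^ 2 = 0 := by
      have e0 : ∀ j, bj p j ^ 2 = ((4 : ZMod p)⁻¹) ^ j := by
        intro j
        unfold bj
        rw [← inv_pow, ← pow_mul, mul_comm, pow_mul]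
        congr 1
        rw [inv_pow]
        norm_num
      rw [sum_congr rfl fun j _ => e0 j]
      have e1 := geom_sum_mul ((4 : ZMod p)⁻¹) N
      have e2 : ((4 : ZMod p)⁻¹) ^ N = 1 := by
        rw [inv_pow, show (4 : ZMod p) = 2 ^ 2 by norm_num, ← pow_mul, hpow, inv_one]
      rw [e2, sub_self] at e1
      rcases mul_eq_zero.1 e1 with e | e
      · exact e
      · exfalso
        have e3 : (4 : ZMod p)⁻¹ = 1 := by linear_combination e
        have e4 : (4 : ZMod p) = 1 := by rw [← inv_inv (4 : ZMod p), e3, inv_one]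
        have e5 : (3 : ZMod p) = 0 := by linear_combination e4
        have := hcast 3 (by norm_num) h3
        exact this (by push_cast; exact e5)
    have e1 : ∑ j ∈ range N, (qj p j ^ 2 + (qj p j + bj p j) ^ 2) =
        2 * ∑ j ∈ range N, qj p j * (qj p j + bj p j) + ∑ j ∈ range N, bj p j ^ 2 := by
      rw [mul_sum, ← sum_add_distrib]
      exact sum_congr rfl fun j _ => by ring
    rw [e1, hb, add_zero]

end Pool.Agent.H35L
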