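import Pool.Agent.H35L.Step
import Pool.Agent.H35L.Num
import Pool.Agent.H35L.K1
import Pool.Agent.H35L.K2
import Pool.Agent.H35L.RED
import Pool.Agent.H35L.FQ
import Pool.Agent.H35L.WALK
import Pool.Agent.H35L.BLK
import Pool.Agent.H35L.PACK
import Pool.Agent.H35L.CONV
import Pool.Agent.H35L.SWAR

/-!
# Project LP: assembly
-/

set_option autoImplicit false

namespace Pool.Agent.H35L

open Finset

theorem good64 : Good x64 64 where
  pos := by norm_num
  hm := rfl
  hm2 := rfl
  hc2m := rfl
  hinv := by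
    have := natCast_eq (a := 3703094 * 2 ^ 64) (b := 1) (by norm_num)
    push_cast at this
    exact_mod_cast this
  hcm := by
    have := natCast_eq (a := 18210713) (b := 64 * 40742170) (by norm_num)
    push_cast at this
    exact_mod_cast this
  hC1 := by
    have := natCast_eq (a := 4829371 + 64 * (64 + 1) * 40742170) (b := 0) (by norm_num)
    push_cast at this
    rw [eq_neg_iff_add_eq_zero]
    exact_mod_cast this
  hC3 := by
    have := natCast_eq (a := 6 * 41386836) (b := 64 * (64 + 1) * (2 * 64 + 1) * 40742170 ^ 2) (by norm_num)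
    push_cast at this
    exact_mod_cast this
  hE0 := by
    have := natCast_eq (a := 4263034 + 2) (b := 2 ^ (64 + 1)) (by norm_num)
    push_cast at this
    rw [eq_sub_iff_add_eq]
    exact_mod_cast this
  hE1 := by
    have := natCast_eq (a := 28560159 + (64 * 2 ^ (64 + 1) + 2)) (b := 2 ^ (64 + 1)) (by norm_num)
    push_cast at this
    have h2 : (x64.E1 : ZMod P) = 28560159 := by
      show ((28560159 : ℕ) : ZMod P) = 28560159
      norm_cast
    rw [h2]
    push_cast
    linear_combination this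
  hrep := rfl
  hmask := rfl
  hmaskr := rfl
  hpowr := rfl
  hlin := rfl
  hsh := rfl
  hcW := rfl
  hW := by norm_num

theorem good57 : Good x57 57 where
  pos := by norm_num
  hm := rfl
  hm2 := rfl
  hc2m := rfl
  hinv := by
    have := natCast_eq (a := 7075215 * 2 ^ 57) (b := 1) (by norm_num)
    push_cast at this
    exact_mod_cast this
  hcm := by
    have := natCast_eq (a := 30146952) (b := 57 * 40742170) (by norm_num)
    push_cast at this
    exact_mod_cast this
  hC1 := by
    have := natCast_eq (a := 34265358 + 57 * (57 + 1) * 40742170) (b := 0) (by norm_num)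
    push_cast at this
    rw [eq_neg_iff_add_eq_zero]
    exact_mod_cast this
  hC3 := by
    have := natCast_eq (a := 6 * 20901844) (b := 57 * (57 + 1) * (2 * 57 + 1) * 40742170 ^ 2) (by norm_num)
    push_cast at this
    exact_mod_cast this
  hE0 := by
    have := natCast_eq (a := 35848252 + 2) (b := 2 ^ (57 + 1)) (by norm_num)
    push_cast at this
    rw [eq_sub_iff_add_eq]
    exact_mod_cast this
  hE1 := by
    have := natCast_eq (a := 29970430 + (57 * 2 ^ (57 + 1) + 2)) (b := 2 ^ (57 + 1)) (by norm_num)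
    push_cast at this
    have h2 : (x57.E1 : ZMod P) = 29970430 := by
      show ((29970430 : ℕ) : ZMod P) = 29970430
      norm_cast
    rw [h2]
    push_cast
    linear_combination this
  hrep := rfl
  hmask := rfl
  hmaskr := rfl
  hpowr := rfl
  hlin := rfl
  hsh := rfl
  hcW := rfl
  hW := by norm_num

theorem t_swar : S_SWAR := t_SWAR t_PACK t_CONV

/-- There is a state after `j` doublings with code `c`. -/
def E (j c : ℕ) : Prop := ∃ a β Q t1 t2, St j c a β Q t1 t2

theorem E0 : E 0 (enc 1 1 0 0 0) := by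
  refine ⟨1, 1, 0, 0, 0, rfl, by decide, by decide, by decide, by decide, ?_, ?_, ?_, ?_, ?_⟩
  · decide
  · simp [bj]
  · have h : (2 ^ 0 / P : ℕ) = 0 := by decide
    simp only [qj, h]
    simp
  · simp
  · simp

theorem E_pw (n j c : ℕ) (h : E j c) : E (j + 64 * 2 ^ n) (pw (stp x64) n c) := by
  obtain ⟨a, β, Q, t1, t2, hs⟩ := h
  exact pw_st (stp x64) 64 (fun j c a β Q t1 t2 s =>
    stp_st t_swar t_BLK P_prime fq_two x64 64 good64 j c a β Q t1 t2 s) n j c a β Q t1 t2 hs

theorem E_57 (j c : ℕ) (h : E j c) : E (j + 57) (stp x57 c) := by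
  obtain ⟨a, β, Q, t1, t2, hs⟩ := h
  exact stp_st t_swar t_BLK P_prime fq_two x57 57 good57 j c a β Q t1 t2 hs

theorem E_end : E 21223673 (enc 42447346 42447346 1 34227565 26431305) := by
  have h0 := E_pw 15 _ _ E0
  rw [k0] at h0
  have h1 := E_pw 15 _ _ h0
  rw [k1] at h1
  have h2 := E_pw 15 _ _ h1
  rw [k2] at h2
  have h3 := E_pw 15 _ _ h2
  rw [k3] at h3
  have h4 := E_pw 15 _ _ h3
  rw [k4] at h4
  have h5 := E_pw 15 _ _ h4
  rw [k5] at h5
  have h6 := E_pw 15 _ _ h5
  rw [k6] at h6
  have h7 := E_pw 15 _ _ h6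
  rw [k7] at h7
  have h8 := E_pw 15 _ _ h7
  rw [k8] at h8
  have h9 := E_pw 15 _ _ h8
  rw [k9] at h9
  have h10 := E_pw 0 _ _ (E_pw 1 _ _ (E_pw 5 _ _ (E_pw 6 _ _ (E_pw 8 _ _ (E_pw 9 _ _
    (E_pw 10 _ _ (E_pw 11 _ _ h9)))))))
  rw [k10] at h10
  have h11 := E_57 _ _ h10
  rw [k11] at h11
  norm_num at h11
  exact h11

theorem sums : (34227565 : ZMod P) = ∑ i ∈ range 21223673, (2 * qj P i + bj P i) ∧
    (26431305 : ZMod P) = ∑ i ∈ range 21223673, qj P i * (qj P i + bj P i) := by
  obtain ⟨a, β, Q, t1, t2, h⟩ := E_end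
  have hc := h.hc
  rw [enc_eq, enc_eq] at hc
  have b1 := h.b1
  have b2 := h.b2
  have e2 : t2 = 26431305 := by
    have := congrArg (fun c => c % B) hc
    simp only [Nat.add_mul_mod_self_left] at this
    rw [Nat.mod_eq_of_lt b2] at this
    rw [← this]
    rfl
  have e1 : t1 = 34227565 := by
    have hB : 0 < B := by decide
    have := congrArg (fun c => c / B % B) hc
    simp only [Nat.add_mul_div_left _ _ hB] at this
    rw [Nat.div_eq_of_lt b2] at this
    simp only [zero_add, Nat.add_mul_mod_self_left] at this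
    rw [Nat.mod_eq_of_lt b1] at this
    rw [← this]
    rfl
  have h1 := h.h1
  have h2 := h.h2
  rw [e1] at h1
  rw [e2] at h2
  exact ⟨by exact_mod_cast h1, by exact_mod_cast h2⟩

theorem main : (P : ℤ) ^ 3 ∣ (∑ a ∈ Icc 1 (P - 1), (a : ℤ) ^ (P - 1)) - P - (((P - 1).factorial : ℕ) : ℤ) := by
  apply t_RED P P_prime (by decide)
  obtain ⟨w1, w2⟩ := t_WALK t_FQ P 21223673 P_prime (by decide) P_eq order_two
  obtain ⟨s1, s2⟩ := sums
  rw [w1, w2, ← s1, ← s2]
  have := natCast_eq (a := 2 * 26431305 + 34227565 ^ 2) (b := 2 * 34227565) (by norm_num)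
  push_cast at this
  linear_combination this

end Pool.Agent.H35L
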