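import Pool.Agent.H35L.Def

/-!
# Project LP: correctness of the step function
-/

set_option autoImplicit false

namespace Pool.Agent.H35L

open Finset

/-- The parameters are those of `m` doublings. -/
structure Good (x : Prm) (m : ℕ) : Prop where
  pos : 0 < m
  hm : x.m = m
  hm2 : x.m2 = 2 * m
  hc2m : x.c2m = 2 ^ m
  hinv : (x.inv : ZMod P) * 2 ^ m = 1
  hcm : (x.cm : ZMod P) = m * (q2v : ZMod P)
  hC1 : (x.C1 : ZMod P) = -(m * (m + 1) * (q2v : ZMod P))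
  hC3 : 6 * (x.C3 : ZMod P) = (m : ZMod P) * (m + 1) * (2 * m + 1) * (q2v : ZMod P) ^ 2
  hE0 : (x.E0 : ZMod P) = 2 ^ (m + 1) - 2
  hE1 : (x.E1 : ZMod P) = -(((m : ZMod P) - 1) * 2 ^ (m + 1) + 2)
  hrep : x.rep = repW 136 m
  hmask : x.mask = maskW 136 m
  hmaskr : x.maskr = maskR 136 m m
  hpowr : x.powr = powR 136 m m
  hlin : x.lin = linR 136 m m
  hsh : x.sh = 136 * (m - 1)
  hcW : x.cW = 2 ^ 136
  hW : m * 2 ^ (2 * m) < 2 ^ 136

/-- The state after `j` doublings. -/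
structure St (j c : ℕ) (a β Q t1 t2 : ℕ) : Prop where
  hc : c = enc a β Q t1 t2
  bβ : β < B
  bQ : Q < B
  b1 : t1 < B
  b2 : t2 < B
  ha : a = 2 ^ j % P
  hβ : (β : ZMod P) = bj P j
  hQ : (Q : ZMod P) = qj P j
  h1 : (t1 : ZMod P) = ∑ i ∈ range j, (2 * qj P i + bj P i)
  h2 : (t2 : ZMod P) = ∑ i ∈ range j, qj P i * (qj P i + bj P i)

theorem P_lt_B : P < B := by decide

theorem mod_lt_B (x : ℕ) : Nat.mod x P < B := (Nat.mod_lt x (by decide)).trans P_lt_B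

theorem enc_eq (a β Q t1 t2 : ℕ) : enc a β Q t1 t2 = t2 + B * (t1 + B * (Q + B * (β + B * a))) := rfl

theorem dec (x : Prm) (a β Q t1 t2 : ℕ) (hβ : β < B) (hQ : Q < B) (h1 : t1 < B) (h2 : t2 < B) :
    stp x (enc a β Q t1 t2) = stp1 x (Nat.mul x.c2m a) (Nat.mod (Nat.mul β x.inv) P) Q t1 t2 := by
  have hB : 0 < B := by decide
  have e0 : Nat.mod (enc a β Q t1 t2) B = t2 := by
    rw [enc_eq]; exact (Nat.add_mul_mod_self_left _ _ _).trans (Nat.mod_eq_of_lt h2)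
  have e1 : Nat.div (enc a β Q t1 t2) B = t1 + B * (Q + B * (β + B * a)) := by
    rw [enc_eq]; exact (Nat.add_mul_div_left _ _ hB).trans (by rw [Nat.div_eq_of_lt h2, zero_add])
  have e2 : Nat.mod (t1 + B * (Q + B * (β + B * a))) B = t1 :=
    (Nat.add_mul_mod_self_left _ _ _).trans (Nat.mod_eq_of_lt h1)
  have e3 : Nat.div (t1 + B * (Q + B * (β + B * a))) B = Q + B * (β + B * a) :=
    (Nat.add_mul_div_left _ _ hB).trans (by rw [Nat.div_eq_of_lt h1, zero_add])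
  have e4 : Nat.mod (Q + B * (β + B * a)) B = Q :=
    (Nat.add_mul_mod_self_left _ _ _).trans (Nat.mod_eq_of_lt hQ)
  have e5 : Nat.div (Q + B * (β + B * a)) B = β + B * a :=
    (Nat.add_mul_div_left _ _ hB).trans (by rw [Nat.div_eq_of_lt hQ, zero_add])
  have e6 : Nat.mod (β + B * a) B = β :=
    (Nat.add_mul_mod_self_left _ _ _).trans (Nat.mod_eq_of_lt hβ)
  have e7 : Nat.div (β + B * a) B = a :=
    (Nat.add_mul_div_left _ _ hB).trans (by rw [Nat.div_eq_of_lt hβ, zero_add])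
  unfold stp stpa stpb stp0
  rw [e0, e1, e2, e3, e4, e5, e6, e7]

theorem stp_st (hS : S_SWAR) (hB : S_BLK) (hP : P.Prime) (h2 : fq P 2 = (q2v : ZMod P)) (x : Prm) (m : ℕ)
    (g : Good x m) (j c a β Q t1 t2 : ℕ) (s : St j c a β Q t1 t2) :
    ∃ a' β' Q' t1' t2', St (j + m) (stp x c) a' β' Q' t1' t2' := by
  have hP0 : 0 < P := hP.pos
  have h3 : 3 < P := by decide
  -- the block
  set r : ℕ := 2 ^ m * (2 ^ j % P) / P with hr
  have hrlt : r < 2 ^ m := by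
    rw [hr, Nat.div_lt_iff_lt_mul hP0]
    exact Nat.mul_lt_mul_of_pos_left (Nat.mod_lt _ hP0) (by positivity)
  obtain ⟨b1, b2, b3, b4, b5⟩ := hB P m j r hP h3 hr (qj P (j + m)) (bj P (j + m)) (q2v : ZMod P)
    (x.C3 : ZMod P) rfl rfl h2.symm g.hC3
  obtain ⟨w1, w2, w3⟩ := hS 136 m r g.pos g.hW hrlt
  -- new values
  set β' : ℕ := Nat.mod (Nat.mul β x.inv) P with hβ'
  have cβ' : (β' : ZMod P) = bj P (j + m) := by
    have : (β' : ZMod P) = (β : ZMod P) * (x.inv : ZMod P) := by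
      rw [hβ']; exact (ZMod.natCast_mod _ _).trans (by push_cast [Nat.mul_eq]; rfl)
    rw [this, s.hβ, ← b4]
    calc bj P (j + m) * 2 ^ m * (x.inv : ZMod P) = bj P (j + m) * ((x.inv : ZMod P) * 2 ^ m) := by ring
      _ = _ := by rw [g.hinv, mul_one]
  have hdiv : Nat.div (Nat.mul x.c2m a) P = r := by
    rw [g.hc2m, s.ha, hr]; rfl
  set Q' : ℕ := Nat.mod (Nat.add Q (Nat.add x.cm (Nat.mul β' r))) P with hQ'
  have cQ' : (Q' : ZMod P) = qj P (j + m) := by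
    have : (Q' : ZMod P) = (Q : ZMod P) + ((x.cm : ZMod P) + (β' : ZMod P) * (r : ZMod P)) := by
      rw [hQ']; exact (ZMod.natCast_mod _ _).trans (by simp only [Nat.add_eq, Nat.mul_eq]; push_cast; ring)
    rw [this, s.hQ, g.hcm, cβ', b3]; ring
  have hstep : stp x c = enc (Nat.mod (Nat.mul x.c2m a) P) β' Q'
      (nt1 x β' Q' t1 (Nat.add x.E0 (Nat.mul Pm2 (Y1 m r))))
      (nt2 x β' Q' t2 (Nat.add x.E0 (Nat.mul Pm2 (Y1 m r))) (Y2 m r) (VV m r)) := by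
    rw [s.hc, dec x a β Q t1 t2 s.bβ s.bQ s.b1 s.b2]
    unfold stp1 stp2 stp3 stp4
    rw [hdiv, ← hβ', ← hQ', g.hrep, g.hmask, g.hmaskr, g.hpowr, g.hlin, g.hsh, g.hcW, w1, w2, w3]
  have cPm2 : (Pm2 : ZMod P) = -2 := by
    have : ((Pm2 + 2 : ℕ) : ZMod P) = 0 := by
      rw [show Pm2 + 2 = P from by decide]; exact ZMod.natCast_self P
    push_cast at this
    linear_combination this
  have cPm1 : (Pm1 : ZMod P) = -1 := by
    have : ((Pm1 + 1 : ℕ) : ZMod P) = 0 := by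
      rw [show Pm1 + 1 = P from by decide]; exact ZMod.natCast_self P
    push_cast at this
    linear_combination this
  have cZ : ((Nat.add x.E0 (Nat.mul Pm2 (Y1 m r)) : ℕ) : ZMod P) = 2 ^ (m + 1) - 2 - 2 * (Y1 m r : ℕ) := by
    simp only [Nat.add_eq, Nat.mul_eq]
    push_cast
    rw [cPm2, g.hE0]; ring
  refine ⟨_, _, _, _, _, ⟨hstep, mod_lt_B _, mod_lt_B _, mod_lt_B _, mod_lt_B _, ?_, cβ', cQ', ?_, ?_⟩⟩
  · rw [g.hc2m, s.ha, b5]; rfl
  · rw [sum_range_add, b1, ← s.h1]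
    unfold nt1
    refine (ZMod.natCast_mod _ _).trans ?_
    generalize hZ : Nat.add x.E0 (Nat.mul Pm2 (Y1 m r)) = Z at cZ ⊢
    simp only [Nat.add_eq, Nat.mul_eq]
    push_cast
    rw [cβ', cQ', cZ, g.hm2, g.hC1]
    push_cast
    ring
  · rw [sum_range_add, b2, ← s.h2]
    unfold nt2
    refine (ZMod.natCast_mod _ _).trans ?_
    generalize hZ : Nat.add x.E0 (Nat.mul Pm2 (Y1 m r)) = Z at cZ ⊢
    simp only [Nat.add_eq, Nat.mul_eq]
    push_cast
    rw [cβ', cQ', cZ, cPm1, g.hm, g.hC1, g.hE1]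
    ring

/-- One more iteration of `pw`. -/
theorem pw_succ (f : ℕ → ℕ) (n c : ℕ) : pw f (n + 1) c = pw f n (pw f n c) := rfl

theorem pw_st (f : ℕ → ℕ) (m : ℕ) (hf : ∀ j c a β Q t1 t2, St j c a β Q t1 t2 →
    ∃ a' β' Q' t1' t2', St (j + m) (f c) a' β' Q' t1' t2') (n : ℕ) :
    ∀ j c a β Q t1 t2, St j c a β Q t1 t2 →
      ∃ a' β' Q' t1' t2', St (j + m * 2 ^ n) (pw f n c) a' β' Q' t1' t2' := by
  induction n with
  | zero =>
    intro j c a β Q t1 t2 h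
    have e : pw f 0 c = f c := rfl
    rw [e, pow_zero, mul_one]
    exact hf j c a β Q t1 t2 h
  | succ n ih =>
    intro j c a β Q t1 t2 h
    obtain ⟨a', β', Q', t1', t2', h'⟩ := ih j c a β Q t1 t2 h
    obtain ⟨a'', β'', Q'', t1'', t2'', h''⟩ := ih _ _ _ _ _ _ _ h'
    refine ⟨a'', β'', Q'', t1'', t2'', ?_⟩
    rw [pw_succ, show j + m * 2 ^ (n + 1) = j + m * 2 ^ n + m * 2 ^ n from by ring]
    exact h''

end Pool.Agent.H35L
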