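import Mathlib

/-!
# Project LP (helper35): 42447347 is a Lerch prime (MP_76fadc_nt, Q1)

Pieces: file `Pool/Agent/H35L/XXX.lean`, `import Pool.Agent.H35L.Stm`, namespace `Pool.Agent.H35L`,
theorem `t_XXX : S_XXX` (or with the hypotheses named in the docstring).
-/

set_option autoImplicit false

namespace Pool.Agent.H35L

open Finset

/-- Fermat quotient of the integer `z` modulo `p`, as an element of `ZMod p`. -/
def fq (p : ℕ) (z : ℤ) : ZMod p := (((z ^ (p - 1) - 1) / (p : ℤ) : ℤ) : ZMod p)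

/-- **RED** (90 lines). Reduction of the Lerch condition to the first and second moments of the Fermat quotients.
Proof. For `a ∈ Icc 1 (p-1)` let `Q a = (a^(p-1) - 1) / p : ℤ`, so `a^(p-1) = 1 + p * Q a` (Fermat, `ZMod.pow_card_sub_one_eq_one` or
`Int.ModEq.pow_card_sub_one_eq_one`; `fq p a = (Q a : ZMod p)`). Let `E = ∑ Q a`, `T = ∑ (Q a)^2` (over `Icc 1 (p-1)`). Wilson: `(p-1)! = p * W - 1`, `W : ℤ`
(`ZMod.wilsons_lemma`). So `∑ a^(p-1) - p - (p-1)! = (p - 1 + p E) - p - (p W - 1) = p (E - W)`; show `p^2 ∣ E - W`.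
Lemma A (induction on the finset `s`, `ring_nf`/`Dvd` or explicit witness): for `f : ι → ℤ`,
`p^3 ∣ 2 * ∏ i ∈ s, (1 + p * f i) - (2 + 2 * p * ∑ f i + p^2 * ((∑ f i)^2 - ∑ (f i)^2))`.
Apply it to `f = Q`: `∏ a^(p-1) = ((p-1)!)^(p-1)` (`Finset.prod_pow`, `Finset.prod_Icc_id_eq_factorial`), and to the constant `f = -W` on a set with
`p - 1` elements: `(p W - 1)^(p-1) = (1 - p W)^(p-1) = ∏ (1 + p * (-W))` (`p - 1` even). Subtract: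
`p^3 ∣ 2 p E + p^2 (E^2 - T) + 2 p (p-1) W - p^2 ((p-1)^2 W^2 - (p-1) W^2)`, so (cancel `p`)
`p^2 ∣ 2 E + p (E^2 - T) + 2 (p-1) W - p (p-1)(p-2) W^2`. Modulo `p` this gives `p ∣ 2 (E - W)`, so `p ∣ E - W`. And it says
`p^2 ∣ 2 (E - W) + p (E^2 - T + 2 W - (p-1)(p-2) W^2)`; modulo `p`: `E^2 - T + 2W - 2W^2 ≡ E^2 - T + 2E - 2E^2 = -(T + E^2 - 2E) ≡ 0`
by hypothesis, so `p^2 ∣ 2 (E - W)` and `p^2 ∣ E - W` (`p` odd). -/
def S_RED : Prop := ∀ p : ℕ, p.Prime → 3 < p →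
  (∑ a ∈ Icc 1 (p - 1), fq p (a : ℤ) ^ 2) + (∑ a ∈ Icc 1 (p - 1), fq p (a : ℤ)) ^ 2
    - 2 * ∑ a ∈ Icc 1 (p - 1), fq p (a : ℤ) = 0 →
  (p : ℤ) ^ 3 ∣ (∑ a ∈ Icc 1 (p - 1), (a : ℤ) ^ (p - 1)) - p - (((p - 1).factorial : ℕ) : ℤ)

/-- **FQ** (80 lines). Rules for Fermat quotients. Proof: for `p ∤ z`, `z^(p-1) = 1 + p * Q z` with `Q z = (z^(p-1) - 1) / p`; conversely
if `z^(p-1) = 1 + p * x + p^2 * y` then `fq p z = x` in `ZMod p` (helper lemma). (1) multiply. (2) `(z + p k)^(p-1) ≡ z^(p-1) + (p-1) p k z^(p-2) mod p^2`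
(`add_pow_two`-like: `Commute.add_pow_prime..` is not needed, use `sub_dvd`-type lemma: for `n : ℕ`, `p^2 ∣ (z + p*k)^n - z^n - n * (p*k) * z^(n-1)`, by
induction on `n`), and `(p-1) z^(p-2) = - z⁻¹` in `ZMod p`. (3) `p - 1` is even. (4) `1^(p-1) = 1`. -/
def S_FQ : Prop := ∀ p : ℕ, p.Prime → 3 < p →
  (∀ z w : ℤ, (z : ZMod p) ≠ 0 → (w : ZMod p) ≠ 0 → fq p (z * w) = fq p z + fq p w) ∧
  (∀ z k : ℤ, (z : ZMod p) ≠ 0 → fq p (z + p * k) = fq p z - (k : ZMod p) * (z : ZMod p)⁻¹) ∧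
  (∀ z : ℤ, fq p (-z) = fq p z) ∧ fq p 1 = 0

/-- The inverse of `2 ^ j` modulo `p`. -/
def bj (p j : ℕ) : ZMod p := ((2 : ZMod p) ^ j)⁻¹

/-- The Fermat quotient of `2 ^ j % p` (see WALK). -/
def qj (p j : ℕ) : ZMod p := (j : ZMod p) * fq p 2 + ((2 ^ j / p : ℕ) : ZMod p) * bj p j

/-- **WALK** (120 lines), from `FQ`: `theorem t_WALK (h : S_FQ) : S_WALK`. Proof. `2` generates the units of `ZMod p` and `2^N = -1` (its square is 1 and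
it is not 1). So `i ↦ 2^i % p`, `i < N`, and `i ↦ p - 2^i % p`, `i < N`, together run through `Icc 1 (p-1)` exactly once (e.g.
`Finset.sum_nbij'`/`sum_bij` from `range (2N)` via `i ↦ (2^i : ZMod p).val` (injective because of the order, so bijective by cardinality), split
`range (2N)` in two halves with `Finset.sum_range_add`/`range_add`..., and `(2^(N+i)).val = p - (2^i).val`).
With `A = 2^j % p`, `K = 2^j / p`: `2^j = A + p * K`, so `j * fq 2 = fq (2^j) = fq A - K / A` (FQ (1), (2), (4), induction on `j` for `fq (2^j)`), and `A = 2^j` in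
`ZMod p`: `fq A = qj p j`. And `fq (p - A) = fq (-A + p * 1) = fq A - (-A)⁻¹ = qj + bj`. So the first sum is `∑ (qj + (qj + bj))` and
the second is `∑ (qj^2 + (qj + bj)^2) = ∑ 2 qj (qj + bj) + ∑ bj^2`, with `∑_{j<N} bj^2 = ∑ (1/4)^j = 0` because `(1/4)^N = (2^(2N))⁻¹ = 1` and `1/4 ≠ 1`
(`geom_sum_mul` or `mul_geom_sum`, `p ≠ 3`). -/
def S_WALK : Prop := ∀ p N : ℕ, p.Prime → 3 < p → p = 2 * N + 1 → orderOf (2 : ZMod p) = 2 * N →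
  (∑ a ∈ Icc 1 (p - 1), fq p (a : ℤ) = ∑ j ∈ range N, (2 * qj p j + bj p j)) ∧
  (∑ a ∈ Icc 1 (p - 1), fq p (a : ℤ) ^ 2 = 2 * ∑ j ∈ range N, qj p j * (qj p j + bj p j))

/-- `∑_{s=1}^{m} (r mod 2^s)` -/
def Y1 (m r : ℕ) : ℕ := ∑ s ∈ range m, r % 2 ^ (s + 1)
/-- `∑_{s=1}^{m} s (r mod 2^s)` -/
def Y2 (m r : ℕ) : ℕ := ∑ s ∈ range m, (s + 1) * (r % 2 ^ (s + 1))
/-- `∑_{s=1}^{m} (r mod 2^s) (2^s - r mod 2^s)` -/
def VV (m r : ℕ) : ℕ := ∑ s ∈ range m, (r % 2 ^ (s + 1)) * (2 ^ (s + 1) - r % 2 ^ (s + 1))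

/-- **BLK** (120 lines). A block of `m` doublings, starting at `j`. Proof. Put `J = j + m`, `K = 2^J / p`, `A = 2^j % p`, `r = 2^m * A / p`.
`2^J = 2^m (A + p (2^j / p))`, so `K = 2^m * (2^j/p) + r` (`Nat.add_mul_div_left`), `2^J % p = 2^m * A % p` and `K % 2^s = r % 2^s` for `s ≤ m`. For `s ≤ m`: `2^(J-s) / p = K / 2^s`
(`2^(J-s)/p = (2^J / 2^s) / p`, `Nat.div_div_eq_div_mul`, `mul_comm`), so `K = 2^s * (2^(J-s)/p) + r % 2^s`. As `bj (J-s) = 2^s * bj J`: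
`qj (J-s) = (J-s) q2 + (K - r % 2^s) bj J = qj J - s q2 - (r % 2^s) bj J` in `ZMod p`, `q2 = fq p 2`.
Then sum over `s = 1..m` (reflect the sum: `Finset.sum_range_reflect`; the sums `∑ s`, `∑ s^2`, `∑ 2^s`, `∑ s 2^s` in closed form, by induction on `m`):
with `Q = qj J`, `β = bj J`, terms `x = Q - s q2 - β y`, `b = β 2^s`: `2x + b` and `x (x + b) = (Q - s q2)^2 + β (Q - s q2)(2^s - 2y) - β^2 y (2^s - y)`.
(`6 * C3 = ...` avoids division by 6.) The last part: `qj (j+m) = qj j + m q2 + r β`. -/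
def S_BLK : Prop := ∀ p m j r : ℕ, p.Prime → 3 < p → r = 2 ^ m * (2 ^ j % p) / p →
  ∀ Q β q2 C3 : ZMod p, Q = qj p (j + m) → β = bj p (j + m) → q2 = fq p 2 →
  6 * C3 = (m : ZMod p) * (m + 1) * (2 * m + 1) * q2 ^ 2 →
  (∑ i ∈ range m, (2 * qj p (j + i) + bj p (j + i)) =
    2 * m * Q - m * (m + 1) * q2 + β * ((2 : ZMod p) ^ (m + 1) - 2 - 2 * (Y1 m r : ℕ))) ∧
  (∑ i ∈ range m, qj p (j + i) * (qj p (j + i) + bj p (j + i)) =
    m * Q ^ 2 - m * (m + 1) * q2 * Q + C3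
      + β * (Q * ((2 : ZMod p) ^ (m + 1) - 2 - 2 * (Y1 m r : ℕ))
        - q2 * ((((m : ZMod p) - 1) * 2 ^ (m + 1) + 2) - 2 * (Y2 m r : ℕ)))
      - β ^ 2 * (VV m r : ℕ)) ∧
  Q = qj p j + m * q2 + (r : ZMod p) * β ∧ β * 2 ^ m = bj p j ∧ 2 ^ (j + m) % p = 2 ^ m * (2 ^ j % p) % p

/-! ## Packed arithmetic -/

/-- `∑_{k<n} 2^(W k)` -/
def repW (W : ℕ) (n : ℕ) : ℕ := Nat.rec 0 (fun k ih => ih + 2 ^ (W * k)) n
/-- `∑_{k<n} (2^(k+1) - 1) 2^(W k)` -/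
def maskW (W : ℕ) (n : ℕ) : ℕ := Nat.rec 0 (fun k ih => ih + (2 ^ (k + 1) - 1) * 2 ^ (W * k)) n
/-- `∑_{k<n} (2^(m-k) - 1) 2^(W k)` -/
def maskR (W m : ℕ) (n : ℕ) : ℕ := Nat.rec 0 (fun k ih => ih + (2 ^ (m - k) - 1) * 2 ^ (W * k)) n
/-- `∑_{k<n} 2^(m-k) 2^(W k)` -/
def powR (W m : ℕ) (n : ℕ) : ℕ := Nat.rec 0 (fun k ih => ih + (2 ^ (m - k)) * 2 ^ (W * k)) n
/-- `∑_{k<n} (m-k) 2^(W k)` -/
def linR (W m : ℕ) (n : ℕ) : ℕ := Nat.rec 0 (fun k ih => ih + (m - k) * 2 ^ (W * k)) n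

/-- **PACK** (90 lines). Masking the copies of `r`. Proof: `repW W n = ∑ k ∈ range n, 2^(W k)` etc. (induction, `Finset.sum_range_succ`). More generally for
`x k, y k < 2^W`: `(∑_{k<n} x k * 2^(W k)) &&& (∑_{k<n} y k * 2^(W k)) = ∑_{k<n} (x k &&& y k) * 2^(W k)`, by induction on `n` from
`(a + x * 2^t) &&& (b + y * 2^t) = (a &&& b) + (x &&& y) * 2^t` for `a, b < 2^t` (`Nat.eq_of_testBit_eq`, `Nat.testBit_two_pow_mul_add` / `Nat.testBit_mul_pow_two_add`,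
the lower sums are `< 2^(W n)`), then `Nat.and_two_pow_sub_one_eq_mod` (`r &&& (2^s - 1) = r % 2^s`). -/
def S_PACK : Prop := ∀ W m r : ℕ, 0 < m → m < W → r < 2 ^ m →
  Nat.land (r * repW W m) (maskW W m) = ∑ k ∈ range m, (r % 2 ^ (k + 1)) * 2 ^ (W * k) ∧
  Nat.land (r * repW W m) (maskR W m m) = ∑ k ∈ range m, (r % 2 ^ (m - k)) * 2 ^ (W * k) ∧
  powR W m m = ∑ k ∈ range m, 2 ^ (m - k) * 2 ^ (W * k) ∧
  linR W m m = ∑ k ∈ range m, (m - k) * 2 ^ (W * k) ∧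
  repW W m = ∑ k ∈ range m, 2 ^ (W * k)

/-- **CONV** (80 lines). The middle coefficient of a product (Kronecker substitution). Proof: the product is
`∑_{i<m} ∑_{j<m} u i * v j * 2^(W (i+j))`. Split by `i + j < m - 1`, `= m - 1`, `> m - 1`. The last part is a multiple of `2^(W m)`; the middle is
`c * 2^(W (m-1))` with `c = ∑_{k<m} u k * v (m-1-k) < 2^W`; the first is `< 2^(W (m-1))`: it is `∑_{n<m-1} c_n 2^(W n)` with
`c_n = ∑_{i ≤ n} u i * v (n-i) ≤ m * M < 2^W`, and `∑_{n<k} c_n X^n < X^k` for `c_n < X` (induction). So the quotient by `2^(W(m-1))` is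
`c + 2^W * (..)`. (One can also use `Polynomial ℕ`: `eval`, `coeff_mul`.) -/
def S_CONV : Prop := ∀ (W m M : ℕ) (u v : ℕ → ℕ), 0 < m → m * M < 2 ^ W → (∀ i j, i < m → j < m → u i * v j ≤ M) →
  ((∑ k ∈ range m, u k * 2 ^ (W * k)) * (∑ k ∈ range m, v k * 2 ^ (W * k))) / 2 ^ (W * (m - 1)) % 2 ^ W
    = ∑ k ∈ range m, u k * v (m - 1 - k)

/-- **SWAR** (60 lines), from `PACK`, `CONV`: `theorem t_SWAR (h1 : S_PACK) (h2 : S_CONV) : S_SWAR`. Proof: `Nat.shiftRight_eq_div_pow`. `u k = r % 2^(k+1)`,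
`v k = 1`, resp. `m - k`, resp. `2^(m-k) - r % 2^(m-k)` (the difference of the two sums, termwise `r % 2^(m-k) ≤ 2^(m-k)`, `Finset.sum_tsub_distrib`), and `m - (m-1-k) = k+1`. Bounds
`u i * v j ≤ 2^m * 2^m`, `m ≤ 2^m`, `m * 2^(2m) < 2^W` by hypothesis. -/
def S_SWAR : Prop := ∀ W m r : ℕ, 0 < m → m * 2 ^ (2 * m) < 2 ^ W → r < 2 ^ m →
  Nat.mod (Nat.shiftRight (Nat.mul (Nat.land (Nat.mul r (repW W m)) (maskW W m)) (repW W m)) (W * (m - 1))) (2 ^ W) = Y1 m r ∧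
  Nat.mod (Nat.shiftRight (Nat.mul (Nat.land (Nat.mul r (repW W m)) (maskW W m)) (linR W m m)) (W * (m - 1))) (2 ^ W) = Y2 m r ∧
  Nat.mod (Nat.shiftRight (Nat.mul (Nat.land (Nat.mul r (repW W m)) (maskW W m))
    (Nat.sub (powR W m m) (Nat.land (Nat.mul r (repW W m)) (maskR W m m)))) (W * (m - 1))) (2 ^ W) = VV m r

end Pool.Agent.H35L
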